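import Pool.Agent.U201.PR.Cone

/-!
# Products of varieties which satisfy the cone conjecture
-/

set_option autoImplicit false

namespace Pool.Agent.U201.PR

open Finset Filter Topology
open Pool.Agent.X324.CF Pool.Agent.U201.EC
open Pool.Agent.Y167 (cone cone_add cone_smul cone_le cone_mono cone_sum mem_cone_self
  zero_mem_cone cone_image cone_ind)
open scoped TensorProduct

section One

variable {ρ : ℕ} {S : Type*} [CommRing S] [Algebra ℂ S] {ℬ : Cl ρ → Submodule ℂ S}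
  [GradedAlgebra ℬ] {u : Cl ρ}

theorem semiF_of_mul {β : Cl ρ} {k : ℕ} (hk : 0 < k) (h : SemiampleF ℬ u (k • β)) :
    SemiampleF ℬ u β := by
  obtain ⟨m, hm, h⟩ := h
  exact ⟨m * k, Nat.mul_pos hm hk, fun p hp => by rw [mul_smul]; exact h p hp⟩

theorem semiF_u (F : IsConeVariety ℬ u) : SemiampleF ℬ u u := by
  obtain ⟨m, hm⟩ := F.ample u
  refine semiF_of_mul (k := m + 1) m.succ_pos ?_
  rw [add_smul, one_smul, add_comm]
  exact hm

/-- Every class becomes semiample when any large multiple of `u` is added. -/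
theorem ample_large (F : IsConeVariety ℬ u) (β : Cl ρ) :
    ∃ M : ℕ, ∀ m, M ≤ m → SemiampleF ℬ u (β + m • u) := by
  obtain ⟨M, hM⟩ := F.ample β
  refine ⟨M, fun m hm => ?_⟩
  obtain ⟨k, rfl⟩ := Nat.exists_eq_add_of_le hm
  rw [add_smul, ← add_assoc]
  exact hM.add ((semiF_u F).nsmul k)

variable [IsDomain S]

theorem eff_add {β γ : Cl ρ} (h1 : ∃ r ∈ ℬ β, r ≠ 0) (h2 : ∃ r ∈ ℬ γ, r ≠ 0) :
    ∃ r ∈ ℬ (β + γ), r ≠ 0 := by
  obtain ⟨r, hr, hr0⟩ := h1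
  obtain ⟨s, hs, hs0⟩ := h2
  exact ⟨r * s, SetLike.mul_mem_graded hr hs, mul_ne_zero hr0 hs0⟩

theorem eff_nsmul {β : Cl ρ} (h : ∃ r ∈ ℬ β, r ≠ 0) (k : ℕ) : ∃ r ∈ ℬ (k • β), r ≠ 0 := by
  obtain ⟨r, hr, hr0⟩ := h
  exact ⟨r ^ k, SetLike.pow_mem_graded k hr, pow_ne_zero k hr0⟩

/-- All large multiples of `u` are effective. -/
theorem u_large (F : IsConeVariety ℬ u) :
    ∃ M : ℕ, ∀ m, M ≤ m → ∃ r ∈ ℬ (m • u), r ≠ 0 := by
  obtain ⟨k, h1, h2⟩ := F.sections u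
  have h1' : ∃ r ∈ ℬ ((k + 1) • u), r ≠ 0 := by
    rwa [add_smul, one_smul, add_comm]
  refine ⟨k * (k + 1), fun m hm => ?_⟩
  rcases Nat.eq_zero_or_pos k with rfl | hk
  · have h3 := eff_nsmul h1' m
    rwa [smul_smul, zero_add, mul_one] at h3
  · -- `m = q k + s` with `s < k ≤ q`
    have h3 : m = (m / k - m % k) * k + (m % k) * (k + 1) := by
      have h4 : m % k < k := Nat.mod_lt _ hk
      have h5 : k + 1 ≤ m / k := by
        rw [Nat.le_div_iff_mul_le hk]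
        linarith [Nat.mul_comm k (k + 1)]
      have h6 := Nat.div_add_mod m k
      have h7 : m % k ≤ m / k := by omega
      obtain ⟨t, ht⟩ := Nat.exists_eq_add_of_le h7
      rw [ht, Nat.add_sub_cancel_left]
      conv_lhs => rw [← h6, ht]
      ring
    rw [h3, add_smul, mul_smul, mul_smul]
    exact eff_add (eff_nsmul h2 _) (eff_nsmul h1' _)

theorem sections_large (F : IsConeVariety ℬ u) (β : Cl ρ) :
    ∃ M : ℕ, ∀ m, M ≤ m → (∃ r ∈ ℬ (β + m • u), r ≠ 0) ∧ ∃ r ∈ ℬ (m • u), r ≠ 0 := by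
  obtain ⟨M, hM⟩ := u_large F
  obtain ⟨k, h1, -⟩ := F.sections β
  refine ⟨k + M, fun m hm => ⟨?_, hM m (by omega)⟩⟩
  obtain ⟨t, rfl⟩ := Nat.exists_eq_add_of_le hm
  rw [add_assoc, add_smul, ← add_assoc]
  exact eff_add h1 (hM _ (by omega))

end One

variable {ρ₁ ρ₂ : ℕ} {R₁ R₂ R : Type*} [CommRing R₁] [Algebra ℂ R₁] [CommRing R₂] [Algebra ℂ R₂]
    [CommRing R] [Algebra ℂ R] {𝒜₁ : Cl ρ₁ → Submodule ℂ R₁} {𝒜₂ : Cl ρ₂ → Submodule ℂ R₂}
    {𝒜 : Cl (ρ₁ + ρ₂) → Submodule ℂ R} {ι₁ : R₁ →ₐ[ℂ] R} {ι₂ : R₂ →ₐ[ℂ] R}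
    {v : Cl (ρ₁ + ρ₂)}

/-- The product of two varieties which satisfy the cone conjecture satisfies the cone conjecture. -/
theorem prod_variety' [GradedAlgebra 𝒜₁] [GradedAlgebra 𝒜₂] [GradedAlgebra 𝒜] [IsDomain R₁]
    [IsDomain R₂] [IsDomain R] (P : IsProduct 𝒜₁ 𝒜₂ 𝒜 ι₁ ι₂) (F₁ : IsConeVariety 𝒜₁ (pr1 v))
    (F₂ : IsConeVariety 𝒜₂ (pr2 v)) (hc₁ : Const 𝒜₁) (hc₂ : Const 𝒜₂) : IsConeVariety 𝒜 v where
  point := by
    obtain ⟨p₁, h1⟩ := F₁.point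
    obtain ⟨p₂, h2⟩ := F₂.point
    have e1 : (P.pt p₁ p₂).comp ι₁ = p₁ := by ext a; exact P.pt₁ p₁ p₂ a
    have e2 : (P.pt p₁ p₂).comp ι₂ = p₂ := by ext a; exact P.pt₂ p₁ p₂ a
    exact ⟨P.pt p₁ p₂, (semistable_iff P).2 (by rw [e1, e2]; exact ⟨h1, h2⟩)⟩
  sections := fun β => by
    obtain ⟨M, hM⟩ := sections_large F₁ (pr1 β)
    obtain ⟨N, hN⟩ := sections_large F₂ (pr2 β)
    refine ⟨M + N, eff_mk P ?_ ?_, eff_mk P ?_ ?_⟩
    · exact (hM (M + N) (by omega)).1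
    · exact (hN (M + N) (by omega)).1
    · exact (hM (M + N) (by omega)).2
    · exact (hN (M + N) (by omega)).2
  ample := fun β => by
    obtain ⟨M, hM⟩ := ample_large F₁ (pr1 β)
    obtain ⟨N, hN⟩ := ample_large F₂ (pr2 β)
    exact ⟨M + N, semiample_mk P (hM (M + N) (by omega)) (hN (M + N) (by omega))⟩
  curve := by
    obtain ⟨y₁, h1⟩ := F₁.curve
    obtain ⟨y₂, h2⟩ := F₂.curve
    refine ⟨Fin.append y₁ y₂, fun β hβ i => ?_⟩
    obtain ⟨h3, h4⟩ := eff_pr P hβ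
    have h5 := h1 _ h3
    have h6 := h2 _ h4
    have h7 : 0 ≤ ∑ k, y₁ k * pr1 β k := by
      rcases Nat.eq_zero_or_pos ρ₁ with h | h
      · subst h
        simp
      · exact (abs_nonneg _).trans (h5 ⟨0, h⟩)
    have h8 : 0 ≤ ∑ k, y₂ k * pr2 β k := by
      rcases Nat.eq_zero_or_pos ρ₂ with h | h
      · subst h
        simp
      · exact (abs_nonneg _).trans (h6 ⟨0, h⟩)
    rw [Fin.sum_univ_add]
    simp only [Fin.append_left, Fin.append_right]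
    have h9 : ∑ k, y₁ k * β (Fin.castAdd ρ₂ k) = ∑ k, y₁ k * pr1 β k := rfl
    have h10 : ∑ k, y₂ k * β (Fin.natAdd ρ₁ k) = ∑ k, y₂ k * pr2 β k := rfl
    rw [h9, h10]
    refine Fin.addCases (fun i => ?_) (fun i => ?_) i
    · have := h5 i
      change |pr1 β i| ≤ _
      linarith
    · have := h6 i
      change |pr2 β i| ≤ _
      linarith
  kernel := kernel_prod P hc₁ hc₂ F₁.kernel F₂.kernel
  cone := cone_prod P F₁ F₂

end Pool.Agent.U201.PR
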