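import Pool.Agent.U201.PR.Defs

/-!
# Iterated products of varieties: definitions
-/

set_option autoImplicit false

namespace Pool.Agent.U201.PR

open Pool.Agent.X324.CF Pool.Agent.U201.EC

/-- A variety with free class group `ℤ^ρ`, given by its Cox ring `R = ⨁ 𝒜 β`, a domain, and a class
`u`. -/
structure Variety where
  ρ : ℕ
  R : Type
  [ring : CommRing R]
  [alg : Algebra ℂ R]
  [dom : IsDomain R]
  𝒜 : Cl ρ → Submodule ℂ R
  [graded : GradedAlgebra 𝒜]
  u : Cl ρ

attribute [instance] Variety.ring Variety.alg Variety.dom Variety.graded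

/-- The variety `F` satisfies the cone conjecture (its existence part) with the ample class `u`, only
finitely many automorphisms of `F` act trivially on the class group, and the only functions on `F` are
the constants. -/
def Good (F : Variety) : Prop :=
  IsConeVariety F.𝒜 F.u ∧ ∀ r ∈ F.𝒜 0, ∃ c : ℂ, r = algebraMap ℂ F.R c

/-- `F` is the product `F₁ × … × F_k` of finitely many, `k ≥ 1`, of the given varieties; the ample
class of a product is the sum of the pullbacks of the ample classes of the factors. -/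
inductive ProductOf (𝒞 : Variety → Prop) : Variety → Prop
  | factor (F : Variety) : 𝒞 F → ProductOf 𝒞 F
  | prod (F₁ F₂ : Variety) (R : Type) [CommRing R] [Algebra ℂ R] [IsDomain R]
      (𝒜 : Cl (F₁.ρ + F₂.ρ) → Submodule ℂ R) [GradedAlgebra 𝒜] (ι₁ : F₁.R →ₐ[ℂ] R)
      (ι₂ : F₂.R →ₐ[ℂ] R) : ProductOf 𝒞 F₁ → ProductOf 𝒞 F₂ → IsProduct F₁.𝒜 F₂.𝒜 𝒜 ι₁ ι₂ →
        ProductOf 𝒞 ⟨F₁.ρ + F₂.ρ, R, 𝒜, Fin.append F₁.u F₂.u⟩

end Pool.Agent.U201.PR
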