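import Pool.Agent.U201.PR.MovCone
import Pool.Agent.U201.PR.Main
import Pool.Agent.U201.PR.VarDefs

/-!
# Products of varieties which satisfy the movable cone conjecture
-/

set_option autoImplicit false

namespace Pool.Agent.U201.PR

open Finset Filter Topology
open Pool.Agent.X324.CF Pool.Agent.U201.EC Pool.Agent.U201.CM Pool.Agent.U201.GC
open Pool.Agent.Y167 (cone cone_add cone_smul cone_le cone_mono cone_sum mem_cone_self
  zero_mem_cone cone_image cone_ind)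
open scoped TensorProduct

section One

variable {ρ : ℕ} {S : Type*} [CommRing S] [Algebra ℂ S] {ℬ : Cl ρ → Submodule ℂ S}
  [GradedAlgebra ℬ] {u : Cl ρ}

omit [GradedAlgebra ℬ] in
theorem movF_of_mul {β : Cl ρ} {k : ℕ} (hk : 0 < k) (h : MovableF ℬ (k • β)) :
    MovableF ℬ β := by
  obtain ⟨m, hm, h⟩ := h
  exact ⟨m * k, Nat.mul_pos hm hk, fun p hp => h p (by rwa [mul_smul] at hp)⟩

variable [IsDomain S]

/-- Every class becomes movable when any large multiple of `u` is added. -/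
theorem mov_large (F : IsMovConeVariety ℬ u) (β : Cl ρ) :
    ∃ M : ℕ, ∀ m, M ≤ m → MovableF ℬ (β + m • u) := by
  have := F.ufd
  have hu : MovableF ℬ u := by
    obtain ⟨m, hm⟩ := F.ample u
    refine movF_of_mul (k := m + 1) m.succ_pos ?_
    rw [add_smul, one_smul, add_comm]
    exact hm
  obtain ⟨M, hM⟩ := F.ample β
  refine ⟨M, fun m hm => ?_⟩
  obtain ⟨k, rfl⟩ := Nat.exists_eq_add_of_le hm
  rw [add_smul, ← add_assoc]
  exact hM.add (hu.nsmul k)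

/-- All large multiples of `u` are effective. -/
theorem u_large' (hs : ∀ β : Cl ρ, ∃ m : ℕ, (∃ r ∈ ℬ (β + m • u), r ≠ 0) ∧ ∃ r ∈ ℬ (m • u), r ≠ 0) :
    ∃ M : ℕ, ∀ m, M ≤ m → ∃ r ∈ ℬ (m • u), r ≠ 0 := by
  obtain ⟨k, h1, h2⟩ := hs u
  have h1' : ∃ r ∈ ℬ ((k + 1) • u), r ≠ 0 := by
    rwa [add_smul, one_smul, add_comm]
  refine ⟨k * (k + 1), fun m hm => ?_⟩
  rcases Nat.eq_zero_or_pos k with rfl | hk
  · have h3 := eff_nsmul h1' m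
    rwa [smul_smul, zero_add, mul_one] at h3
  · have h3 : m = (m / k - m % k) * k + (m % k) * (k + 1) := by
      have h4 : m % k < k := Nat.mod_lt _ hk
      have h5 : k + 1 ≤ m / k := by
        rw [Nat.le_div_iff_mul_le hk]
        linarith [Nat.mul_comm k (k + 1)]
      have h6 := Nat.div_add_mod m k
      have h7 : m % k ≤ m / k := by omega
      obtain ⟨t, ht⟩ := Nat.exists_eq_add_of_le h7
      rw [ht, Nat.add_sub_cancel_left]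
      conv_lhs => rw [← h6, ht]
      ring
    rw [h3, add_smul, mul_smul, mul_smul]
    exact eff_add (eff_nsmul h2 _) (eff_nsmul h1' _)

theorem sections_large' (hs : ∀ β : Cl ρ, ∃ m : ℕ,
    (∃ r ∈ ℬ (β + m • u), r ≠ 0) ∧ ∃ r ∈ ℬ (m • u), r ≠ 0) (β : Cl ρ) :
    ∃ M : ℕ, ∀ m, M ≤ m → (∃ r ∈ ℬ (β + m • u), r ≠ 0) ∧ ∃ r ∈ ℬ (m • u), r ≠ 0 := by
  obtain ⟨M, hM⟩ := u_large' hs
  obtain ⟨k, h1, -⟩ := hs β
  refine ⟨k + M, fun m hm => ⟨?_, hM m (by omega)⟩⟩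
  obtain ⟨t, rfl⟩ := Nat.exists_eq_add_of_le hm
  rw [add_assoc, add_smul, ← add_assoc]
  exact eff_add h1 (hM _ (by omega))

end One

variable {ρ₁ ρ₂ : ℕ} {R₁ R₂ R : Type*} [CommRing R₁] [Algebra ℂ R₁] [CommRing R₂] [Algebra ℂ R₂]
    [CommRing R] [Algebra ℂ R] {𝒜₁ : Cl ρ₁ → Submodule ℂ R₁} {𝒜₂ : Cl ρ₂ → Submodule ℂ R₂}
    {𝒜 : Cl (ρ₁ + ρ₂) → Submodule ℂ R} {ι₁ : R₁ →ₐ[ℂ] R} {ι₂ : R₂ →ₐ[ℂ] R}
    {v : Cl (ρ₁ + ρ₂)}

theorem crv_prod (P : IsProduct 𝒜₁ 𝒜₂ 𝒜 ι₁ ι₂) (h1 : Crv 𝒜₁) (h2 : Crv 𝒜₂) : Crv 𝒜 := by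
  obtain ⟨y₁, h1⟩ := h1
  obtain ⟨y₂, h2⟩ := h2
  refine ⟨Fin.append y₁ y₂, fun β hβ i => ?_⟩
  obtain ⟨h3, h4⟩ := eff_pr P hβ
  have h5 := h1 _ h3
  have h6 := h2 _ h4
  have h7 : 0 ≤ ∑ k, y₁ k * pr1 β k := by
    rcases Nat.eq_zero_or_pos ρ₁ with h | h
    · subst h
      simp
    · exact (abs_nonneg _).trans (h5 ⟨0, h⟩)
  have h8 : 0 ≤ ∑ k, y₂ k * pr2 β k := by
    rcases Nat.eq_zero_or_pos ρ₂ with h | h
    · subst h
      simp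
    · exact (abs_nonneg _).trans (h6 ⟨0, h⟩)
  rw [Fin.sum_univ_add]
  simp only [Fin.append_left, Fin.append_right]
  have h9 : ∑ k, y₁ k * β (Fin.castAdd ρ₂ k) = ∑ k, y₁ k * pr1 β k := rfl
  have h10 : ∑ k, y₂ k * β (Fin.natAdd ρ₁ k) = ∑ k, y₂ k * pr2 β k := rfl
  rw [h9, h10]
  refine Fin.addCases (fun i => ?_) (fun i => ?_) i
  · have := h5 i
    change |pr1 β i| ≤ _
    linarith
  · have := h6 i
    change |pr2 β i| ≤ _
    linarith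

/-- The product of two varieties which satisfy the movable cone conjecture satisfies the movable cone
conjecture. -/
theorem prod_mov [GradedAlgebra 𝒜₁] [GradedAlgebra 𝒜₂] [GradedAlgebra 𝒜] [IsDomain R₁]
    [IsDomain R₂] [IsDomain R] (hR : UniqueFactorizationMonoid R) (P : IsProduct 𝒜₁ 𝒜₂ 𝒜 ι₁ ι₂)
    (F₁ : IsMovConeVariety 𝒜₁ (pr1 v)) (F₂ : IsMovConeVariety 𝒜₂ (pr2 v)) (hc₁ : Const 𝒜₁)
    (hc₂ : Const 𝒜₂) : IsMovConeVariety 𝒜 v where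
  ufd := hR
  sections := fun β => by
    obtain ⟨M, hM⟩ := sections_large' F₁.sections (pr1 β)
    obtain ⟨N, hN⟩ := sections_large' F₂.sections (pr2 β)
    refine ⟨M + N, eff_mk P ?_ ?_, eff_mk P ?_ ?_⟩
    · exact (hM (M + N) (by omega)).1
    · exact (hN (M + N) (by omega)).1
    · exact (hM (M + N) (by omega)).2
    · exact (hN (M + N) (by omega)).2
  ample := fun β => by
    obtain ⟨M, hM⟩ := mov_large F₁ (pr1 β)
    obtain ⟨N, hN⟩ := mov_large F₂ (pr2 β)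
    exact ⟨M + N, mov_mk hR P hc₁ F₁.curve hc₂ F₂.curve (hM (M + N) (by omega))
      (hN (M + N) (by omega))⟩
  curve := crv_prod P F₁.curve F₂.curve
  kernel := kernel_prod P hc₁ hc₂ F₁.kernel F₂.kernel
  cone := by
    classical
    obtain ⟨P₁, hP₁, h1⟩ := F₁.cone
    obtain ⟨P₂, hP₂, h2⟩ := F₂.cone
    refine ⟨P₁.image j1 ∪ P₂.image j2, fun a ha => ?_, fun b hb => ?_⟩
    · rcases Finset.mem_union.1 ha with h | h
      · obtain ⟨x, hx, rfl⟩ := Finset.mem_image.1 h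
        obtain ⟨⟨β, rfl⟩, h3, h4⟩ := hP₁ x hx
        exact ⟨⟨_, j1_rv β⟩, mov_j1 P hc₂ F₂.curve h3, eff_j1 P h4⟩
      · obtain ⟨x, hx, rfl⟩ := Finset.mem_image.1 h
        obtain ⟨⟨β, rfl⟩, h3, h4⟩ := hP₂ x hx
        exact ⟨⟨_, j2_rv β⟩, mov_j2 P hc₁ F₁.curve h3, eff_j2 P h4⟩
    · obtain ⟨φ₁, σ₁, h3, h4⟩ := h1 (q1 b) ⟨mov_q1 P hc₂ F₂.curve hb.1, eff_q1 P hb.2⟩
      obtain ⟨φ₂, σ₂, h5, h6⟩ := h2 (q2 b) ⟨mov_q2 P hc₁ F₁.curve hb.1, eff_q2 P hb.2⟩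
      refine ⟨P.lf φ₁ φ₂, sp σ₁ σ₂, lf_induces P h3 h5, ?_⟩
      rw [ext_sp]
      exact cone_add (cone_mono Finset.subset_union_left (cone_image j1 h4))
        (cone_mono Finset.subset_union_right (cone_image j2 h6))

end Pool.Agent.U201.PR
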