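import Pool.Agent.U201.PR.Defs
import Pool.Agent.U201.PC.Defs

/-!
# Iterated products of pairs: definitions
-/

set_option autoImplicit false

namespace Pool.Agent.U201.PR

open Pool.Agent.X324.CF Pool.Agent.U201.EC Pool.Agent.U201.PC

/-- A pair `(F, Δ)`: a variety `F` with free class group `ℤ^ρ`, given by its Cox ring `R = ⨁ 𝒜 β`, a
domain, a class `u`, and the equation `f` of an effective divisor with the same support as `Δ`. -/
structure Pair where
  ρ : ℕ
  R : Type
  [ring : CommRing R]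
  [alg : Algebra ℂ R]
  [dom : IsDomain R]
  𝒜 : Cl ρ → Submodule ℂ R
  [graded : GradedAlgebra 𝒜]
  u : Cl ρ
  f : R

attribute [instance] Pair.ring Pair.alg Pair.dom Pair.graded

/-- The only functions on `F` are the constants; `f` is a section, not zero, of some sheaf
`O_F(δ)`; and the points of `F` are dense: no nonzero element of the Cox ring vanishes at all of
them. -/
structure IsGoodPair (F : Pair) : Prop where
  const : ∀ r ∈ F.𝒜 0, ∃ c : ℂ, r = algebraMap ℂ F.R c
  ne_zero : F.f ≠ 0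
  homog : ∃ δ, F.f ∈ F.𝒜 δ
  dense : ∀ r : F.R, r ≠ 0 → ∃ p : F.R →ₐ[ℂ] ℂ, Semistable F.𝒜 F.u p ∧ p r ≠ 0

/-- The pair `(F, Δ)` satisfies the cone conjecture (its existence part) with the ample class `u`,
and only finitely many automorphisms of `(F, Δ)` act trivially on the class group. -/
def NefGood (F : Pair) : Prop := IsGoodPair F ∧ IsConePair F.𝒜 F.u {p | p F.f = 0}

/-- `F` is the product `(F₁, Δ₁) × … × (F_k, Δ_k)` of finitely many, `k ≥ 1`, of the given pairs. The
ample class of a product is the sum of the pullbacks of the ample classes of the factors, and its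
divisor is the sum `Δ₁ × F₂ + F₁ × Δ₂` of the pullbacks of the divisors. -/
inductive PairProductOf (𝒞 : Pair → Prop) : Pair → Prop
  | factor (F : Pair) : 𝒞 F → PairProductOf 𝒞 F
  | prod (F₁ F₂ : Pair) (R : Type) [CommRing R] [Algebra ℂ R] [IsDomain R]
      (𝒜 : Cl (F₁.ρ + F₂.ρ) → Submodule ℂ R) [GradedAlgebra 𝒜] (ι₁ : F₁.R →ₐ[ℂ] R)
      (ι₂ : F₂.R →ₐ[ℂ] R) : PairProductOf 𝒞 F₁ → PairProductOf 𝒞 F₂ →
        IsProduct F₁.𝒜 F₂.𝒜 𝒜 ι₁ ι₂ →
        PairProductOf 𝒞 ⟨F₁.ρ + F₂.ρ, R, 𝒜, Fin.append F₁.u F₂.u, ι₁ F₁.f * ι₂ F₂.f⟩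

end Pool.Agent.U201.PR
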