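import Pool.Agent.U201.PR.Retr
import Pool.Agent.U201.PR.MovMain
import Pool.Agent.U201.PR.PairDefs

/-!
# Products of pairs which satisfy the cone conjecture
-/

set_option autoImplicit false

namespace Pool.Agent.U201.PR

open Finset Filter Topology
open Pool.Agent.X324.CF Pool.Agent.U201.EC Pool.Agent.U201.PC
open Pool.Agent.Y167 (cone cone_add cone_smul cone_le cone_mono cone_sum mem_cone_self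
  zero_mem_cone cone_image cone_ind)
open scoped TensorProduct

section One

variable {ρ : ℕ} {S : Type*} [CommRing S] [Algebra ℂ S] {ℬ : Cl ρ → Submodule ℂ S}
  [GradedAlgebra ℬ] {u : Cl ρ}

/-- Every class becomes semiample when any large multiple of `u` is added. -/
theorem ample_large' (ha : ∀ β : Cl ρ, ∃ m : ℕ, SemiampleF ℬ u (β + m • u)) (β : Cl ρ) :
    ∃ M : ℕ, ∀ m, M ≤ m → SemiampleF ℬ u (β + m • u) := by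
  have hu : SemiampleF ℬ u u := by
    obtain ⟨m, hm⟩ := ha u
    refine semiF_of_mul (k := m + 1) m.succ_pos ?_
    rw [add_smul, one_smul, add_comm]
    exact hm
  obtain ⟨M, hM⟩ := ha β
  refine ⟨M, fun m hm => ?_⟩
  obtain ⟨k, rfl⟩ := Nat.exists_eq_add_of_le hm
  rw [add_smul, ← add_assoc]
  exact hM.add (hu.nsmul k)

end One

variable {ρ₁ ρ₂ : ℕ} {R₁ R₂ R : Type*} [CommRing R₁] [Algebra ℂ R₁] [CommRing R₂] [Algebra ℂ R₂]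
    [CommRing R] [Algebra ℂ R] {𝒜₁ : Cl ρ₁ → Submodule ℂ R₁} {𝒜₂ : Cl ρ₂ → Submodule ℂ R₂}
    {𝒜 : Cl (ρ₁ + ρ₂) → Submodule ℂ R} {ι₁ : R₁ →ₐ[ℂ] R} {ι₂ : R₂ →ₐ[ℂ] R}
    {v : Cl (ρ₁ + ρ₂)} {f₁ : R₁} {f₂ : R₂}

theorem IsProduct.lf_symm₁ (P : IsProduct 𝒜₁ 𝒜₂ 𝒜 ι₁ ι₂) (φ₁ : R₁ ≃ₐ[ℂ] R₁) (φ₂ : R₂ ≃ₐ[ℂ] R₂)
    (a : R₁) : (P.lf φ₁ φ₂).symm (ι₁ a) = ι₁ (φ₁.symm a) := by
  rw [AlgEquiv.symm_apply_eq, P.lf₁, φ₁.apply_symm_apply]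

theorem IsProduct.lf_symm₂ (P : IsProduct 𝒜₁ 𝒜₂ 𝒜 ι₁ ι₂) (φ₁ : R₁ ≃ₐ[ℂ] R₁) (φ₂ : R₂ ≃ₐ[ℂ] R₂)
    (a : R₂) : (P.lf φ₁ φ₂).symm (ι₂ a) = ι₂ (φ₂.symm a) := by
  rw [AlgEquiv.symm_apply_eq, P.lf₂, φ₂.apply_symm_apply]

section

variable [GradedAlgebra 𝒜₁] [GradedAlgebra 𝒜₂]

/-- A pair of automorphisms of the pairs is an automorphism of the product. -/
theorem lf_autS (P : IsProduct 𝒜₁ 𝒜₂ 𝒜 ι₁ ι₂) {φ₁ : R₁ ≃ₐ[ℂ] R₁} {φ₂ : R₂ ≃ₐ[ℂ] R₂}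
    {σ₁ : Cl ρ₁ ≃+ Cl ρ₁} {σ₂ : Cl ρ₂ ≃+ Cl ρ₂} (h1 : IsAutS 𝒜₁ (pr1 v) {p | p f₁ = 0} φ₁ σ₁)
    (h2 : IsAutS 𝒜₂ (pr2 v) {p | p f₂ = 0} φ₂ σ₂) :
    IsAutS 𝒜 v {p | p (ι₁ f₁ * ι₂ f₂) = 0} (P.lf φ₁ φ₂) (sp σ₁ σ₂) := by
  refine ⟨lf_aut P h1.1 h2.1, fun p hp => ?_⟩
  obtain ⟨hp1, hp2⟩ := (semistable_iff P).1 hp
  have h3 : p (ι₁ (φ₁.symm f₁)) = 0 ↔ p (ι₁ f₁) = 0 := h1.2 (p.comp ι₁) hp1
  have h4 : p (ι₂ (φ₂.symm f₂)) = 0 ↔ p (ι₂ f₂) = 0 := h2.2 (p.comp ι₂) hp2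
  change p ((P.lf φ₁ φ₂).symm (ι₁ f₁ * ι₂ f₂)) = 0 ↔ p (ι₁ f₁ * ι₂ f₂) = 0
  rw [map_mul, map_mul, P.lf_symm₁, P.lf_symm₂, mul_eq_zero, h3, h4, map_mul, mul_eq_zero]

/-- An automorphism of the product of two pairs which acts trivially on the classes is given by
automorphisms of the pairs. -/
theorem split_autS [GradedAlgebra 𝒜] [IsDomain R₁] [IsDomain R₂] (P : IsProduct 𝒜₁ 𝒜₂ 𝒜 ι₁ ι₂)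
    (hc₁ : Const 𝒜₁) (hc₂ : Const 𝒜₂) (D₁ : Dense 𝒜₁ (pr1 v)) (D₂ : Dense 𝒜₂ (pr2 v))
    (hf₁ : f₁ ≠ 0) (hf₂ : f₂ ≠ 0) {φ : R ≃ₐ[ℂ] R}
    (hφ : IsAutS 𝒜 v {p | p (ι₁ f₁ * ι₂ f₂) = 0} φ (AddEquiv.refl _)) :
    ∃ (φ₁ : R₁ ≃ₐ[ℂ] R₁) (φ₂ : R₂ ≃ₐ[ℂ] R₂),
      IsAutS 𝒜₁ (pr1 v) {p | p f₁ = 0} φ₁ (AddEquiv.refl _) ∧
      IsAutS 𝒜₂ (pr2 v) {p | p f₂ = 0} φ₂ (AddEquiv.refl _) ∧ φ = P.lf φ₁ φ₂ := by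
  obtain ⟨φ₁, φ₂, h1, h2, rfl⟩ := split_aut P hc₁ hc₂ hφ.1.1
  refine ⟨φ₁, φ₂, ⟨⟨h1, fun _ => Iff.rfl⟩, fun p₁ hp₁ => ?_⟩,
    ⟨⟨h2, fun _ => Iff.rfl⟩, fun p₂ hp₂ => ?_⟩, rfl⟩
  · obtain ⟨p₂, hp₂, h3⟩ := D₂ (φ₂.symm f₂ * f₂) (mul_ne_zero (fun h => hf₂ (by
      rwa [map_eq_zero_iff _ φ₂.symm.injective] at h)) hf₂)
    rw [map_mul] at h3
    have e1 : (P.pt p₁ p₂).comp ι₁ = p₁ := by ext a; exact P.pt₁ p₁ p₂ a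
    have e2 : (P.pt p₁ p₂).comp ι₂ = p₂ := by ext a; exact P.pt₂ p₁ p₂ a
    have h4 := hφ.2 (P.pt p₁ p₂) ((semistable_iff P).2 (by rw [e1, e2]; exact ⟨hp₁, hp₂⟩))
    change P.pt p₁ p₂ ((P.lf φ₁ φ₂).symm (ι₁ f₁ * ι₂ f₂)) = 0 ↔
      P.pt p₁ p₂ (ι₁ f₁ * ι₂ f₂) = 0 at h4
    rw [map_mul, map_mul, P.lf_symm₁, P.lf_symm₂, P.pt₁, P.pt₂, map_mul, P.pt₁, P.pt₂, mul_eq_zero,
      mul_eq_zero, or_iff_left (left_ne_zero_of_mul h3), or_iff_left (right_ne_zero_of_mul h3)] at h4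
    exact h4
  · obtain ⟨p₁, hp₁, h3⟩ := D₁ (φ₁.symm f₁ * f₁) (mul_ne_zero (fun h => hf₁ (by
      rwa [map_eq_zero_iff _ φ₁.symm.injective] at h)) hf₁)
    rw [map_mul] at h3
    have e1 : (P.pt p₁ p₂).comp ι₁ = p₁ := by ext a; exact P.pt₁ p₁ p₂ a
    have e2 : (P.pt p₁ p₂).comp ι₂ = p₂ := by ext a; exact P.pt₂ p₁ p₂ a
    have h4 := hφ.2 (P.pt p₁ p₂) ((semistable_iff P).2 (by rw [e1, e2]; exact ⟨hp₁, hp₂⟩))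
    change P.pt p₁ p₂ ((P.lf φ₁ φ₂).symm (ι₁ f₁ * ι₂ f₂)) = 0 ↔
      P.pt p₁ p₂ (ι₁ f₁ * ι₂ f₂) = 0 at h4
    rw [map_mul, map_mul, P.lf_symm₁, P.lf_symm₂, P.pt₁, P.pt₂, map_mul, P.pt₁, P.pt₂, mul_eq_zero,
      mul_eq_zero, or_iff_right (left_ne_zero_of_mul h3),
      or_iff_right (right_ne_zero_of_mul h3)] at h4
    exact h4

end

/-- The product of two pairs which satisfy the cone conjecture satisfies the cone conjecture. -/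
theorem prod_pair [GradedAlgebra 𝒜₁] [GradedAlgebra 𝒜₂] [GradedAlgebra 𝒜] [IsDomain R₁]
    [IsDomain R₂] [IsDomain R] (P : IsProduct 𝒜₁ 𝒜₂ 𝒜 ι₁ ι₂)
    (F₁ : IsConePair 𝒜₁ (pr1 v) {p | p f₁ = 0}) (F₂ : IsConePair 𝒜₂ (pr2 v) {p | p f₂ = 0})
    (hc₁ : Const 𝒜₁) (hc₂ : Const 𝒜₂) (D₁ : Dense 𝒜₁ (pr1 v)) (D₂ : Dense 𝒜₂ (pr2 v))
    (hf₁ : f₁ ≠ 0) (hf₂ : f₂ ≠ 0) : IsConePair 𝒜 v {p | p (ι₁ f₁ * ι₂ f₂) = 0} where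
  point := by
    obtain ⟨p₁, h1⟩ := F₁.point
    obtain ⟨p₂, h2⟩ := F₂.point
    have e1 : (P.pt p₁ p₂).comp ι₁ = p₁ := by ext a; exact P.pt₁ p₁ p₂ a
    have e2 : (P.pt p₁ p₂).comp ι₂ = p₂ := by ext a; exact P.pt₂ p₁ p₂ a
    exact ⟨P.pt p₁ p₂, (semistable_iff P).2 (by rw [e1, e2]; exact ⟨h1, h2⟩)⟩
  sections := fun β => by
    obtain ⟨M, hM⟩ := sections_large' F₁.sections (pr1 β)
    obtain ⟨N, hN⟩ := sections_large' F₂.sections (pr2 β)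
    refine ⟨M + N, eff_mk P ?_ ?_, eff_mk P ?_ ?_⟩
    · exact (hM (M + N) (by omega)).1
    · exact (hN (M + N) (by omega)).1
    · exact (hM (M + N) (by omega)).2
    · exact (hN (M + N) (by omega)).2
  ample := fun β => by
    obtain ⟨M, hM⟩ := ample_large' F₁.ample (pr1 β)
    obtain ⟨N, hN⟩ := ample_large' F₂.ample (pr2 β)
    exact ⟨M + N, semiample_mk P (hM (M + N) (by omega)) (hN (M + N) (by omega))⟩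
  curve := crv_prod P F₁.curve F₂.curve
  kernel := by
    obtain ⟨T₁, hT₁, h1⟩ := F₁.kernel
    obtain ⟨T₂, hT₂, h2⟩ := F₂.kernel
    refine ⟨Set.image2 P.lf T₁ T₂, Set.Finite.image2 _ hT₁ hT₂, fun φ hφ => ?_⟩
    obtain ⟨φ₁, φ₂, h3, h4, rfl⟩ := split_autS P hc₁ hc₂ D₁ D₂ hf₁ hf₂ hφ
    obtain ⟨t₁, ht₁, s₁, hs₁, rfl⟩ := h1 φ₁ h3
    obtain ⟨t₂, ht₂, s₂, hs₂, rfl⟩ := h2 φ₂ h4
    exact ⟨P.lf t₁ t₂, ⟨t₁, ht₁, t₂, ht₂, rfl⟩, P.lf s₁ s₂, lf_scal P hs₁ hs₂, P.lf_mul _ _ _ _⟩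
  cone := by
    classical
    obtain ⟨P₁, hP₁, h1⟩ := F₁.cone
    obtain ⟨P₂, hP₂, h2⟩ := F₂.cone
    refine ⟨P₁.image j1 ∪ P₂.image j2, fun a ha => ?_, fun b hb => ?_⟩
    · rcases Finset.mem_union.1 ha with h | h
      · obtain ⟨x, hx, rfl⟩ := Finset.mem_image.1 h
        obtain ⟨⟨β, rfl⟩, h3, h4⟩ := hP₁ x hx
        exact ⟨⟨_, j1_rv β⟩, nef_j1 P h3, eff_j1 P h4⟩
      · obtain ⟨x, hx, rfl⟩ := Finset.mem_image.1 h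
        obtain ⟨⟨β, rfl⟩, h3, h4⟩ := hP₂ x hx
        exact ⟨⟨_, j2_rv β⟩, nef_j2 P h3, eff_j2 P h4⟩
    · obtain ⟨φ₁, σ₁, h3, h4⟩ := h1 (q1 b) ⟨nef_q1 P F₂.point hb.1, eff_q1 P hb.2⟩
      obtain ⟨φ₂, σ₂, h5, h6⟩ := h2 (q2 b) ⟨nef_q2 P F₁.point hb.1, eff_q2 P hb.2⟩
      refine ⟨P.lf φ₁ φ₂, sp σ₁ σ₂, lf_autS P h3 h5, ?_⟩
      rw [ext_sp]
      exact cone_add (cone_mono Finset.subset_union_left (cone_image j1 h4))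
        (cone_mono Finset.subset_union_right (cone_image j2 h6))


end Pool.Agent.U201.PR
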