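import Pool.Agent.U201.PR.Defs
import Pool.Agent.U201.EC.FData

/-!
# Sections, points and semiample classes of products
-/

set_option autoImplicit false

namespace Pool.Agent.U201.PR

open Finset
open Pool.Agent.X324.CF Pool.Agent.U201.EC
open Pool.Agent.Y167 (cone cone_add cone_smul cone_le cone_mono cone_sum mem_cone_self
  zero_mem_cone cone_image cone_ind)
open scoped TensorProduct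

variable {ρ₁ ρ₂ : ℕ}

theorem pr1_append {α : Type*} (a : Fin ρ₁ → α) (b : Fin ρ₂ → α) : pr1 (Fin.append a b) = a :=
  funext fun i => Fin.append_left a b i

theorem pr2_append {α : Type*} (a : Fin ρ₁ → α) (b : Fin ρ₂ → α) : pr2 (Fin.append a b) = b :=
  funext fun i => Fin.append_right a b i

theorem append_pr {α : Type*} (β : Fin (ρ₁ + ρ₂) → α) : Fin.append (pr1 β) (pr2 β) = β := by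
  funext i
  refine Fin.addCases (fun i => ?_) (fun i => ?_) i
  · rw [Fin.append_left]; rfl
  · rw [Fin.append_right]; rfl

theorem ext_pr {α : Type*} {β γ : Fin (ρ₁ + ρ₂) → α} (h1 : pr1 β = pr1 γ) (h2 : pr2 β = pr2 γ) :
    β = γ := by
  rw [← append_pr β, ← append_pr γ, h1, h2]

variable {R₁ R₂ R : Type*} [CommRing R₁] [Algebra ℂ R₁] [CommRing R₂] [Algebra ℂ R₂]
    [CommRing R] [Algebra ℂ R] {𝒜₁ : Cl ρ₁ → Submodule ℂ R₁} {𝒜₂ : Cl ρ₂ → Submodule ℂ R₂}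
    {𝒜 : Cl (ρ₁ + ρ₂) → Submodule ℂ R} {ι₁ : R₁ →ₐ[ℂ] R} {ι₂ : R₂ →ₐ[ℂ] R}
    {u : Cl (ρ₁ + ρ₂)}

namespace IsProduct

theorem mem (P : IsProduct 𝒜₁ 𝒜₂ 𝒜 ι₁ ι₂) {β : Cl (ρ₁ + ρ₂)} {a : R₁} (ha : a ∈ 𝒜₁ (pr1 β))
    {b : R₂} (hb : b ∈ 𝒜₂ (pr2 β)) : ι₁ a * ι₂ b ∈ 𝒜 β := by
  rw [P.piece]
  exact Submodule.subset_span ⟨a, ha, b, hb, rfl⟩

theorem ind (P : IsProduct 𝒜₁ 𝒜₂ 𝒜 ι₁ ι₂) {β : Cl (ρ₁ + ρ₂)} {S : Submodule ℂ R}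
    (h : ∀ a ∈ 𝒜₁ (pr1 β), ∀ b ∈ 𝒜₂ (pr2 β), ι₁ a * ι₂ b ∈ S) {r : R} (hr : r ∈ 𝒜 β) : r ∈ S := by
  rw [P.piece] at hr
  refine (Submodule.span_le (p := S)).2 ?_ hr
  rintro _ ⟨a, ha, b, hb, rfl⟩
  exact h a ha b hb

/-- A linear map which is not zero on an element is not zero on some product. -/
theorem exists_ne (P : IsProduct 𝒜₁ 𝒜₂ 𝒜 ι₁ ι₂) {M : Type*} [AddCommGroup M] [Module ℂ M]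
    (ℓ : R →ₗ[ℂ] M) {β : Cl (ρ₁ + ρ₂)} {r : R} (hr : r ∈ 𝒜 β) (h : ℓ r ≠ 0) :
    ∃ a ∈ 𝒜₁ (pr1 β), ∃ b ∈ 𝒜₂ (pr2 β), ℓ (ι₁ a * ι₂ b) ≠ 0 := by
  by_contra hcon
  push Not at hcon
  exact h (P.ind (S := LinearMap.ker ℓ) (fun a ha b hb => hcon a ha b hb) hr)

theorem inj₁ [Nontrivial R₂] (P : IsProduct 𝒜₁ 𝒜₂ 𝒜 ι₁ ι₂) : Function.Injective ι₁ := by
  intro a a' h
  have h1 : Algebra.TensorProduct.productMap ι₁ ι₂ (a ⊗ₜ 1)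
      = Algebra.TensorProduct.productMap ι₁ ι₂ (a' ⊗ₜ 1) := by
    rw [Algebra.TensorProduct.productMap_apply_tmul, Algebra.TensorProduct.productMap_apply_tmul, h]
  have h2 := P.bij.1 h1
  exact Algebra.TensorProduct.includeLeft_injective (R := ℂ) (S := ℂ) (A := R₁) (B := R₂)
    (algebraMap ℂ R₂).injective h2

theorem inj₂ [Nontrivial R₁] (P : IsProduct 𝒜₁ 𝒜₂ 𝒜 ι₁ ι₂) : Function.Injective ι₂ := by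
  intro a a' h
  have h1 : Algebra.TensorProduct.productMap ι₁ ι₂ (1 ⊗ₜ a)
      = Algebra.TensorProduct.productMap ι₁ ι₂ (1 ⊗ₜ a') := by
    rw [Algebra.TensorProduct.productMap_apply_tmul, Algebra.TensorProduct.productMap_apply_tmul, h]
  have h2 := P.bij.1 h1
  exact Algebra.TensorProduct.includeRight_injective (R := ℂ) (A := R₁) (B := R₂)
    (algebraMap ℂ R₁).injective h2

/-- The isomorphism with the tensor product. -/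
noncomputable def iso (P : IsProduct 𝒜₁ 𝒜₂ 𝒜 ι₁ ι₂) : R₁ ⊗[ℂ] R₂ ≃ₐ[ℂ] R :=
  AlgEquiv.ofBijective (Algebra.TensorProduct.productMap ι₁ ι₂) P.bij

theorem iso_tmul (P : IsProduct 𝒜₁ 𝒜₂ 𝒜 ι₁ ι₂) (a : R₁) (b : R₂) :
    P.iso (a ⊗ₜ b) = ι₁ a * ι₂ b :=
  Algebra.TensorProduct.productMap_apply_tmul ι₁ ι₂ a b

theorem iso_symm (P : IsProduct 𝒜₁ 𝒜₂ 𝒜 ι₁ ι₂) (a : R₁) (b : R₂) :
    P.iso.symm (ι₁ a * ι₂ b) = a ⊗ₜ b := by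
  rw [← P.iso_tmul, P.iso.symm_apply_apply]

theorem iso_symm₁ (P : IsProduct 𝒜₁ 𝒜₂ 𝒜 ι₁ ι₂) (a : R₁) : P.iso.symm (ι₁ a) = a ⊗ₜ 1 := by
  rw [← P.iso_symm, map_one, mul_one]

theorem iso_symm₂ (P : IsProduct 𝒜₁ 𝒜₂ 𝒜 ι₁ ι₂) (b : R₂) : P.iso.symm (ι₂ b) = 1 ⊗ₜ b := by
  rw [← P.iso_symm, map_one, one_mul]

/-- Algebra homomorphisms which agree on both factors are equal. -/
theorem hom_ext (P : IsProduct 𝒜₁ 𝒜₂ 𝒜 ι₁ ι₂) {S : Type*} [CommRing S] [Algebra ℂ S]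
    {f g : R →ₐ[ℂ] S} (h1 : ∀ a, f (ι₁ a) = g (ι₁ a)) (h2 : ∀ b, f (ι₂ b) = g (ι₂ b)) : f = g := by
  ext r
  obtain ⟨x, rfl⟩ := P.iso.surjective r
  induction x using TensorProduct.induction_on with
  | zero => rw [map_zero, map_zero, map_zero]
  | tmul a b => rw [P.iso_tmul, map_mul, map_mul, h1, h2]
  | add x y hx hy => rw [map_add, map_add, map_add, hx, hy]

theorem equiv_ext' (P : IsProduct 𝒜₁ 𝒜₂ 𝒜 ι₁ ι₂) {f g : R ≃ₐ[ℂ] R}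
    (h1 : ∀ a, f (ι₁ a) = g (ι₁ a)) (h2 : ∀ b, f (ι₂ b) = g (ι₂ b)) : f = g := by
  have h3 : (f : R →ₐ[ℂ] R) = (g : R →ₐ[ℂ] R) := P.hom_ext h1 h2
  ext r
  exact DFunLike.congr_fun h3 r

/-- The point of the product given by two points. -/
noncomputable def pt (P : IsProduct 𝒜₁ 𝒜₂ 𝒜 ι₁ ι₂) (p₁ : R₁ →ₐ[ℂ] ℂ) (p₂ : R₂ →ₐ[ℂ] ℂ) : R →ₐ[ℂ] ℂ :=
  (Algebra.TensorProduct.productMap p₁ p₂).comp (P.iso.symm : R →ₐ[ℂ] R₁ ⊗[ℂ] R₂)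

theorem pt₁ (P : IsProduct 𝒜₁ 𝒜₂ 𝒜 ι₁ ι₂) (p₁ : R₁ →ₐ[ℂ] ℂ) (p₂ : R₂ →ₐ[ℂ] ℂ) (a : R₁) :
    P.pt p₁ p₂ (ι₁ a) = p₁ a := by
  change Algebra.TensorProduct.productMap p₁ p₂ (P.iso.symm (ι₁ a)) = _
  rw [P.iso_symm₁, Algebra.TensorProduct.productMap_apply_tmul, map_one, mul_one]

theorem pt₂ (P : IsProduct 𝒜₁ 𝒜₂ 𝒜 ι₁ ι₂) (p₁ : R₁ →ₐ[ℂ] ℂ) (p₂ : R₂ →ₐ[ℂ] ℂ) (b : R₂) :
    P.pt p₁ p₂ (ι₂ b) = p₂ b := by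
  change Algebra.TensorProduct.productMap p₁ p₂ (P.iso.symm (ι₂ b)) = _
  rw [P.iso_symm₂, Algebra.TensorProduct.productMap_apply_tmul, map_one, one_mul]

/-- The automorphism of the product given by two automorphisms. -/
noncomputable def lf (P : IsProduct 𝒜₁ 𝒜₂ 𝒜 ι₁ ι₂) (φ₁ : R₁ ≃ₐ[ℂ] R₁) (φ₂ : R₂ ≃ₐ[ℂ] R₂) :
    R ≃ₐ[ℂ] R :=
  (P.iso.symm.trans (Algebra.TensorProduct.congr φ₁ φ₂)).trans P.iso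

theorem lf₁ (P : IsProduct 𝒜₁ 𝒜₂ 𝒜 ι₁ ι₂) (φ₁ : R₁ ≃ₐ[ℂ] R₁) (φ₂ : R₂ ≃ₐ[ℂ] R₂) (a : R₁) :
    P.lf φ₁ φ₂ (ι₁ a) = ι₁ (φ₁ a) := by
  change P.iso (Algebra.TensorProduct.congr φ₁ φ₂ (P.iso.symm (ι₁ a))) = _
  rw [P.iso_symm₁, Algebra.TensorProduct.congr_apply, Algebra.TensorProduct.map_tmul, map_one,
    P.iso_tmul, map_one, mul_one]
  rfl

theorem lf₂ (P : IsProduct 𝒜₁ 𝒜₂ 𝒜 ι₁ ι₂) (φ₁ : R₁ ≃ₐ[ℂ] R₁) (φ₂ : R₂ ≃ₐ[ℂ] R₂) (b : R₂) :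
    P.lf φ₁ φ₂ (ι₂ b) = ι₂ (φ₂ b) := by
  change P.iso (Algebra.TensorProduct.congr φ₁ φ₂ (P.iso.symm (ι₂ b))) = _
  rw [P.iso_symm₂, Algebra.TensorProduct.congr_apply, Algebra.TensorProduct.map_tmul, map_one,
    P.iso_tmul, map_one, one_mul]
  rfl

theorem lf_mul (P : IsProduct 𝒜₁ 𝒜₂ 𝒜 ι₁ ι₂) (φ₁ ψ₁ : R₁ ≃ₐ[ℂ] R₁) (φ₂ ψ₂ : R₂ ≃ₐ[ℂ] R₂) :
    P.lf (φ₁ * ψ₁) (φ₂ * ψ₂) = P.lf φ₁ φ₂ * P.lf ψ₁ ψ₂ := by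
  refine P.equiv_ext' (fun a => ?_) fun b => ?_
  · rw [P.lf₁]
    change _ = P.lf φ₁ φ₂ (P.lf ψ₁ ψ₂ (ι₁ a))
    rw [P.lf₁, P.lf₁]
    rfl
  · rw [P.lf₂]
    change _ = P.lf φ₁ φ₂ (P.lf ψ₁ ψ₂ (ι₂ b))
    rw [P.lf₂, P.lf₂]
    rfl

end IsProduct

variable [GradedAlgebra 𝒜₁] [GradedAlgebra 𝒜₂]

/-- The semistable points. -/
theorem semistable_iff (P : IsProduct 𝒜₁ 𝒜₂ 𝒜 ι₁ ι₂) {v : Cl (ρ₁ + ρ₂)} {p : R →ₐ[ℂ] ℂ} :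
    Semistable 𝒜 v p ↔ Semistable 𝒜₁ (pr1 v) (p.comp ι₁) ∧ Semistable 𝒜₂ (pr2 v) (p.comp ι₂) := by
  constructor
  · rintro ⟨m, hm, r, hr, hr0⟩
    obtain ⟨a, ha, b, hb, h⟩ := P.exists_ne p.toLinearMap hr hr0
    have h1 : p (ι₁ a) * p (ι₂ b) ≠ 0 := by
      rw [← map_mul]
      exact h
    exact ⟨⟨m, hm, a, ha, left_ne_zero_of_mul h1⟩, ⟨m, hm, b, hb, right_ne_zero_of_mul h1⟩⟩
  · rintro ⟨⟨m, hm, a, ha, ha0⟩, ⟨m', hm', b, hb, hb0⟩⟩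
    refine ⟨m * m', Nat.mul_pos hm hm', ι₁ (a ^ m') * ι₂ (b ^ m), P.mem ?_ ?_, ?_⟩
    · have h1 : pr1 ((m * m') • v) = m' • (m • pr1 v) := by
        rw [smul_smul, mul_comm]; rfl
      rw [h1]
      exact SetLike.pow_mem_graded m' ha
    · have h1 : pr2 ((m * m') • v) = m • (m' • pr2 v) := by
        rw [smul_smul]; rfl
      rw [h1]
      exact SetLike.pow_mem_graded m hb
    · rw [map_mul, map_pow, map_pow, map_pow, map_pow]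
      exact mul_ne_zero (pow_ne_zero _ ha0) (pow_ne_zero _ hb0)

/-- The semiample classes. -/
theorem semiample_mk (P : IsProduct 𝒜₁ 𝒜₂ 𝒜 ι₁ ι₂) {v : Cl (ρ₁ + ρ₂)} {β : Cl (ρ₁ + ρ₂)}
    (h1 : SemiampleF 𝒜₁ (pr1 v) (pr1 β)) (h2 : SemiampleF 𝒜₂ (pr2 v) (pr2 β)) :
    SemiampleF 𝒜 v β := by
  obtain ⟨m, hm, h1⟩ := h1
  obtain ⟨m', hm', h2⟩ := h2
  refine ⟨m * m', Nat.mul_pos hm hm', fun p hp => ?_⟩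
  obtain ⟨hp1, hp2⟩ := (semistable_iff P).1 hp
  obtain ⟨a, ha, ha0⟩ := h1 _ hp1
  obtain ⟨b, hb, hb0⟩ := h2 _ hp2
  refine ⟨ι₁ (a ^ m') * ι₂ (b ^ m), P.mem ?_ ?_, ?_⟩
  · have h3 : pr1 ((m * m') • β) = m' • (m • pr1 β) := by
      rw [smul_smul, mul_comm]; rfl
    rw [h3]
    exact SetLike.pow_mem_graded m' ha
  · have h3 : pr2 ((m * m') • β) = m • (m' • pr2 β) := by
      rw [smul_smul]; rfl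
    rw [h3]
    exact SetLike.pow_mem_graded m hb
  · rw [map_mul, map_pow, map_pow, map_pow, map_pow]
    exact mul_ne_zero (pow_ne_zero _ ha0) (pow_ne_zero _ hb0)

theorem semiample_pr1 (P : IsProduct 𝒜₁ 𝒜₂ 𝒜 ι₁ ι₂) {v : Cl (ρ₁ + ρ₂)} {β : Cl (ρ₁ + ρ₂)}
    (hp : ∃ p : R₂ →ₐ[ℂ] ℂ, Semistable 𝒜₂ (pr2 v) p) (h : SemiampleF 𝒜 v β) :
    SemiampleF 𝒜₁ (pr1 v) (pr1 β) := by
  obtain ⟨m, hm, h⟩ := h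
  obtain ⟨p₂, hp₂⟩ := hp
  refine ⟨m, hm, fun p₁ hp₁ => ?_⟩
  have e1 : (P.pt p₁ p₂).comp ι₁ = p₁ := by ext a; exact P.pt₁ p₁ p₂ a
  have e2 : (P.pt p₁ p₂).comp ι₂ = p₂ := by ext a; exact P.pt₂ p₁ p₂ a
  obtain ⟨r, hr, hr0⟩ := h (P.pt p₁ p₂) ((semistable_iff P).2 (by rw [e1, e2]; exact ⟨hp₁, hp₂⟩))
  obtain ⟨a, ha, b, hb, h1⟩ := P.exists_ne (P.pt p₁ p₂).toLinearMap hr hr0
  have h2 : P.pt p₁ p₂ (ι₁ a) * P.pt p₁ p₂ (ι₂ b) ≠ 0 := by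
    rw [← map_mul]
    exact h1
  rw [P.pt₁] at h2
  exact ⟨a, ha, left_ne_zero_of_mul h2⟩

theorem semiample_pr2 (P : IsProduct 𝒜₁ 𝒜₂ 𝒜 ι₁ ι₂) {v : Cl (ρ₁ + ρ₂)} {β : Cl (ρ₁ + ρ₂)}
    (hp : ∃ p : R₁ →ₐ[ℂ] ℂ, Semistable 𝒜₁ (pr1 v) p) (h : SemiampleF 𝒜 v β) :
    SemiampleF 𝒜₂ (pr2 v) (pr2 β) := by
  obtain ⟨m, hm, h⟩ := h
  obtain ⟨p₁, hp₁⟩ := hp
  refine ⟨m, hm, fun p₂ hp₂ => ?_⟩
  have e1 : (P.pt p₁ p₂).comp ι₁ = p₁ := by ext a; exact P.pt₁ p₁ p₂ a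
  have e2 : (P.pt p₁ p₂).comp ι₂ = p₂ := by ext a; exact P.pt₂ p₁ p₂ a
  obtain ⟨r, hr, hr0⟩ := h (P.pt p₁ p₂) ((semistable_iff P).2 (by rw [e1, e2]; exact ⟨hp₁, hp₂⟩))
  obtain ⟨a, ha, b, hb, h1⟩ := P.exists_ne (P.pt p₁ p₂).toLinearMap hr hr0
  have h2 : P.pt p₁ p₂ (ι₁ a) * P.pt p₁ p₂ (ι₂ b) ≠ 0 := by
    rw [← map_mul]
    exact h1
  rw [P.pt₂] at h2
  exact ⟨b, hb, right_ne_zero_of_mul h2⟩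

omit [GradedAlgebra 𝒜₁] [GradedAlgebra 𝒜₂] in
/-- Nonzero sections. -/
theorem eff_pr (P : IsProduct 𝒜₁ 𝒜₂ 𝒜 ι₁ ι₂) {β : Cl (ρ₁ + ρ₂)} (h : ∃ r ∈ 𝒜 β, r ≠ 0) :
    (∃ a ∈ 𝒜₁ (pr1 β), a ≠ 0) ∧ ∃ b ∈ 𝒜₂ (pr2 β), b ≠ 0 := by
  obtain ⟨r, hr, hr0⟩ := h
  obtain ⟨a, ha, b, hb, h1⟩ := P.exists_ne LinearMap.id hr hr0
  refine ⟨⟨a, ha, fun h => h1 ?_⟩, ⟨b, hb, fun h => h1 ?_⟩⟩
  · rw [h, map_zero, zero_mul, map_zero]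
  · rw [h, map_zero, mul_zero, map_zero]

omit [GradedAlgebra 𝒜₁] [GradedAlgebra 𝒜₂] in
theorem eff_mk [IsDomain R] [Nontrivial R₁] [Nontrivial R₂] (P : IsProduct 𝒜₁ 𝒜₂ 𝒜 ι₁ ι₂)
    {β : Cl (ρ₁ + ρ₂)} (h1 : ∃ a ∈ 𝒜₁ (pr1 β), a ≠ 0) (h2 : ∃ b ∈ 𝒜₂ (pr2 β), b ≠ 0) :
    ∃ r ∈ 𝒜 β, r ≠ 0 := by
  obtain ⟨a, ha, ha0⟩ := h1
  obtain ⟨b, hb, hb0⟩ := h2
  refine ⟨ι₁ a * ι₂ b, P.mem ha hb, mul_ne_zero (fun h => ha0 ?_) fun h => hb0 ?_⟩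
  · exact P.inj₁ (by rw [h, map_zero])
  · exact P.inj₂ (by rw [h, map_zero])

end Pool.Agent.U201.PR
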