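import Pool.Agent.U201.PR.PairDefs
import Pool.Agent.U201.PC.MovDefs

/-!
# Iterated products of pairs and both cone conjectures: definitions
-/

set_option autoImplicit false

namespace Pool.Agent.U201.PR

open Pool.Agent.X324.CF Pool.Agent.U201.EC Pool.Agent.U201.PC Pool.Agent.U201.CM
  Pool.Agent.U201.GC

/-- The pair `(F, Δ)` satisfies the nef cone conjecture and the movable cone conjecture (their
existence parts) with the ample class `u`, and only finitely many automorphisms and
pseudo-automorphisms of `(F, Δ)` act trivially on the class group. -/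
def BothGood (F : Pair) : Prop :=
  IsGoodPair F ∧ IsConePair F.𝒜 F.u {p | p F.f = 0} ∧ IsMovConePair F.𝒜 F.u {π | π ∣ F.f}

/-- `F` is the product `(F₁, Δ₁) × … × (F_k, Δ_k)` of finitely many, `k ≥ 1`, of the given pairs. The
ample class of a product is the sum of the pullbacks of the ample classes of the factors, its divisor
is the sum `Δ₁ × F₂ + F₁ × Δ₂` of the pullbacks of the divisors, and its Cox ring is factorial. -/
inductive FactorialPairProductOf (𝒞 : Pair → Prop) : Pair → Prop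
  | factor (F : Pair) : 𝒞 F → FactorialPairProductOf 𝒞 F
  | prod (F₁ F₂ : Pair) (R : Type) [CommRing R] [Algebra ℂ R] [IsDomain R]
      (𝒜 : Cl (F₁.ρ + F₂.ρ) → Submodule ℂ R) [GradedAlgebra 𝒜] (ι₁ : F₁.R →ₐ[ℂ] R)
      (ι₂ : F₂.R →ₐ[ℂ] R) : UniqueFactorizationMonoid R → FactorialPairProductOf 𝒞 F₁ →
        FactorialPairProductOf 𝒞 F₂ → IsProduct F₁.𝒜 F₂.𝒜 𝒜 ι₁ ι₂ →
        FactorialPairProductOf 𝒞 ⟨F₁.ρ + F₂.ρ, R, 𝒜, Fin.append F₁.u F₂.u, ι₁ F₁.f * ι₂ F₂.f⟩

end Pool.Agent.U201.PR
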