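import Pool.Agent.U201.PR.VarDefs
import Pool.Agent.U201.GC.MovDefs

/-!
# Iterated products of varieties and their movable cones: definitions
-/

set_option autoImplicit false

namespace Pool.Agent.U201.PR

open Pool.Agent.X324.CF Pool.Agent.U201.EC Pool.Agent.U201.CM Pool.Agent.U201.GC

/-- The variety `F` satisfies the movable cone conjecture (its existence part), only finitely many
pseudo-automorphisms of `F` act trivially on the class group, and the only functions on `F` are
the constants. -/
def MovGood (F : Variety) : Prop :=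
  IsMovConeVariety F.𝒜 F.u ∧ ∀ r ∈ F.𝒜 0, ∃ c : ℂ, r = algebraMap ℂ F.R c

/-- `F` is the product `F₁ × … × F_k` of finitely many, `k ≥ 1`, of the given varieties; the ample
class of a product is the sum of the pullbacks of the ample classes of the factors, and the Cox ring
of the product is factorial. -/
inductive FactorialProductOf (𝒞 : Variety → Prop) : Variety → Prop
  | factor (F : Variety) : 𝒞 F → FactorialProductOf 𝒞 F
  | prod (F₁ F₂ : Variety) (R : Type) [CommRing R] [Algebra ℂ R] [IsDomain R]
      (𝒜 : Cl (F₁.ρ + F₂.ρ) → Submodule ℂ R) [GradedAlgebra 𝒜] (ι₁ : F₁.R →ₐ[ℂ] R)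
      (ι₂ : F₂.R →ₐ[ℂ] R) : UniqueFactorizationMonoid R → FactorialProductOf 𝒞 F₁ →
        FactorialProductOf 𝒞 F₂ → IsProduct F₁.𝒜 F₂.𝒜 𝒜 ι₁ ι₂ →
        FactorialProductOf 𝒞 ⟨F₁.ρ + F₂.ρ, R, 𝒜, Fin.append F₁.u F₂.u⟩

end Pool.Agent.U201.PR
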