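import Pool.Agent.U201.PR.MovMain
import Pool.Agent.U201.PR.MovVarDefs

/-!
# Iterated products and movable cones
-/

set_option autoImplicit false

namespace Pool.Agent.U201.PR

open Pool.Agent.X324.CF Pool.Agent.U201.EC Pool.Agent.U201.CM Pool.Agent.U201.GC

theorem movGood_prod {𝒞 : Variety → Prop} (h𝒞 : ∀ F, 𝒞 F → MovGood F) {F : Variety}
    (hF : FactorialProductOf 𝒞 F) : MovGood F := by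
  induction hF with
  | factor F h => exact h𝒞 F h
  | prod F₁ F₂ R 𝒜 ι₁ ι₂ hR _ _ P ih1 ih2 =>
    refine ⟨prod_mov hR P ?_ ?_ ih1.2 ih2.2, const_prod P ih1.2 ih2.2⟩
    · rw [pr1_append]
      exact ih1.1
    · rw [pr2_append]
      exact ih2.1

theorem movF_add {ρ : ℕ} {R : Type*} [CommRing R] [Algebra ℂ R] {𝒜 : Cl ρ → Submodule ℂ R}
    {x y : Fin ρ → ℝ} (hx : x ∈ MovF 𝒜) (hy : y ∈ MovF 𝒜) : x + y ∈ MovF 𝒜 :=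
  map_mem_closure₂ (f := fun a b : Fin ρ → ℝ => a + b) continuous_add hx hy
    fun _ ha _ hb => hull_add ha hb

/-- The movable classes, the movable and the effective cone of a product, and its
pseudo-automorphisms which act trivially on the classes. -/
theorem mov_cones_prod {F₁ F₂ : Variety} {R : Type} [CommRing R] [Algebra ℂ R] [IsDomain R]
    {𝒜 : Cl (F₁.ρ + F₂.ρ) → Submodule ℂ R} [GradedAlgebra 𝒜] {ι₁ : F₁.R →ₐ[ℂ] R}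
    {ι₂ : F₂.R →ₐ[ℂ] R} (hR : UniqueFactorizationMonoid R) (h1 : MovGood F₁) (h2 : MovGood F₂)
    (P : IsProduct F₁.𝒜 F₂.𝒜 𝒜 ι₁ ι₂) :
    (∀ β, MovableF 𝒜 β ↔ MovableF F₁.𝒜 (pr1 β) ∧ MovableF F₂.𝒜 (pr2 β)) ∧
    (∀ b, b ∈ MovF 𝒜 ↔ pr1 b ∈ MovF F₁.𝒜 ∧ pr2 b ∈ MovF F₂.𝒜) ∧
    (∀ b, b ∈ EffF 𝒜 ↔ pr1 b ∈ EffF F₁.𝒜 ∧ pr2 b ∈ EffF F₂.𝒜) ∧
    (∀ φ : R ≃ₐ[ℂ] R, Induces 𝒜 φ (AddEquiv.refl _) →
      ∃ (φ₁ : F₁.R ≃ₐ[ℂ] F₁.R) (φ₂ : F₂.R ≃ₐ[ℂ] F₂.R), Induces F₁.𝒜 φ₁ (AddEquiv.refl _) ∧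
        Induces F₂.𝒜 φ₂ (AddEquiv.refl _) ∧ (∀ a, φ (ι₁ a) = ι₁ (φ₁ a)) ∧
          ∀ a, φ (ι₂ a) = ι₂ (φ₂ a)) := by
  refine ⟨fun β => ⟨fun h => ⟨mov_pr₁ P h2.2 h2.1.curve h, mov_pr₂ P h1.2 h1.1.curve h⟩,
    fun h => mov_mk hR P h1.2 h1.1.curve h2.2 h2.1.curve h.1 h.2⟩,
    fun b => ⟨fun hb => ⟨mov_q1 P h2.2 h2.1.curve hb, mov_q2 P h1.2 h1.1.curve hb⟩, ?_⟩,
    fun b => ⟨fun hb => ⟨eff_q1 P hb, eff_q2 P hb⟩, ?_⟩, fun φ hφ => ?_⟩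
  · rintro ⟨h3, h4⟩
    rw [← j_add b]
    exact movF_add (mov_j1 P h2.2 h2.1.curve h3) (mov_j2 P h1.2 h1.1.curve h4)
  · rintro ⟨h3, h4⟩
    rw [← j_add b]
    exact hull_add (eff_j1 P h3) (eff_j2 P h4)
  · obtain ⟨φ₁, φ₂, h3, h4, rfl⟩ := split_aut P h1.2 h2.2 hφ
    exact ⟨φ₁, φ₂, h3, h4, P.lf₁ _ _, P.lf₂ _ _⟩

end Pool.Agent.U201.PR
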