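import Pool.Agent.U201.PR.Retr
import Pool.Agent.U201.PR.MovMain
import Pool.Agent.U201.PC.MovDefs

/-!
# Products of pairs which satisfy the movable cone conjecture
-/

set_option autoImplicit false

namespace Pool.Agent.U201.PR

open Finset Filter Topology
open Pool.Agent.X324.CF Pool.Agent.U201.EC Pool.Agent.U201.PC Pool.Agent.U201.CM
  Pool.Agent.U201.GC
open Pool.Agent.Y167 (cone cone_add cone_smul cone_le cone_mono cone_sum mem_cone_self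
  zero_mem_cone cone_image cone_ind)
open scoped TensorProduct

variable {ρ₁ ρ₂ : ℕ} {R₁ R₂ R : Type*} [CommRing R₁] [Algebra ℂ R₁] [CommRing R₂] [Algebra ℂ R₂]
    [CommRing R] [Algebra ℂ R] {𝒜₁ : Cl ρ₁ → Submodule ℂ R₁} {𝒜₂ : Cl ρ₂ → Submodule ℂ R₂}
    {𝒜 : Cl (ρ₁ + ρ₂) → Submodule ℂ R} {ι₁ : R₁ →ₐ[ℂ] R} {ι₂ : R₂ →ₐ[ℂ] R}
    {v : Cl (ρ₁ + ρ₂)} {f₁ : R₁} {f₂ : R₂}

variable [GradedAlgebra 𝒜₁] [GradedAlgebra 𝒜₂] [GradedAlgebra 𝒜] [IsDomain R₁] [IsDomain R₂]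
  [IsDomain R]

theorem prime_map {S : Type*} [CommRing S] [Algebra ℂ S] (φ : S ≃ₐ[ℂ] S) {π : S} (h : Prime π) :
    Prime (φ π) := by
  refine ⟨fun h0 => h.ne_zero (by rwa [map_eq_zero_iff _ φ.injective] at h0), fun hu =>
    h.not_isUnit ?_, fun a b hab => ?_⟩
  · have h1 := hu.map φ.symm
    rwa [φ.symm_apply_apply] at h1
  · have h1 : π ∣ φ.symm a * φ.symm b := by
      have h2 := map_dvd φ.symm hab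
      rwa [φ.symm_apply_apply, map_mul] at h2
    rcases h.dvd_or_dvd h1 with h2 | h2
    · left
      have h3 := map_dvd φ h2
      rwa [φ.apply_symm_apply] at h3
    · right
      have h3 := map_dvd φ h2
      rwa [φ.apply_symm_apply] at h3

omit [GradedAlgebra 𝒜₁] [GradedAlgebra 𝒜₂] [GradedAlgebra 𝒜] [IsDomain R₁] [IsDomain R] in
theorem prime_of₁ (P : IsProduct 𝒜₁ 𝒜₂ 𝒜 ι₁ ι₂) {π : R₁} (h : Prime (ι₁ π)) : Prime π := by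
  refine ⟨fun h0 => h.ne_zero (by rw [h0, map_zero]), fun hu => h.not_isUnit (hu.map ι₁),
    fun a b hab => ?_⟩
  have h1 : ι₁ π ∣ ι₁ a * ι₁ b := by
    rw [← map_mul]
    exact map_dvd ι₁ hab
  exact (h.dvd_or_dvd h1).imp P.dvd_of_dvd₁ P.dvd_of_dvd₁

omit [GradedAlgebra 𝒜₁] [GradedAlgebra 𝒜₂] [GradedAlgebra 𝒜] [IsDomain R₂] [IsDomain R] in
theorem prime_of₂ (P : IsProduct 𝒜₁ 𝒜₂ 𝒜 ι₁ ι₂) {π : R₂} (h : Prime (ι₂ π)) : Prime π := by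
  refine ⟨fun h0 => h.ne_zero (by rw [h0, map_zero]), fun hu => h.not_isUnit (hu.map ι₂),
    fun a b hab => ?_⟩
  have h1 : ι₂ π ∣ ι₂ a * ι₂ b := by
    rw [← map_mul]
    exact map_dvd ι₂ hab
  exact (h.dvd_or_dvd h1).imp P.dvd_of_dvd₂ P.dvd_of_dvd₂

omit [GradedAlgebra 𝒜₁] in
/-- The pullback of a prime divisor is a prime divisor. -/
theorem prime_mk₁ (hR : UniqueFactorizationMonoid R) (P : IsProduct 𝒜₁ 𝒜₂ 𝒜 ι₁ ι₂)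
    (hc : Const 𝒜₂) (hy : Crv 𝒜₂) {π : R₁} {γ : Cl ρ₁} (hπ : Prime π) (hγ : π ∈ 𝒜₁ γ) :
    Prime (ι₁ π) := by
  have h0 : ι₁ π ≠ 0 := fun h => hπ.ne_zero (P.inj₁ (by rw [h, map_zero]))
  have hu : ¬ IsUnit (ι₁ π) := fun hu => hπ.not_isUnit (isUnit_of_dvd_one (P.dvd_of_dvd₁ (by
    rw [map_one]
    exact hu.dvd)))
  obtain ⟨q, hq, g, hg⟩ := exists_prime_factor h0 hu
  obtain ⟨q₁, g₁, rfl, rfl, e⟩ := dvd_split₁ P hc hy hγ hπ.ne_zero hg.symm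
  rcases hπ.irreducible.isUnit_or_isUnit e.symm with h1 | h1
  · exact absurd (h1.map ι₁) hq.not_isUnit
  · rw [hg]
    exact (associated_mul_unit_right _ _ (h1.map ι₁)).prime hq

omit [GradedAlgebra 𝒜₂] in
theorem prime_mk₂ (hR : UniqueFactorizationMonoid R) (P : IsProduct 𝒜₁ 𝒜₂ 𝒜 ι₁ ι₂)
    (hc : Const 𝒜₁) (hy : Crv 𝒜₁) {π : R₂} {γ : Cl ρ₂} (hπ : Prime π) (hγ : π ∈ 𝒜₂ γ) :
    Prime (ι₂ π) := by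
  have h0 : ι₂ π ≠ 0 := fun h => hπ.ne_zero (P.inj₂ (by rw [h, map_zero]))
  have hu : ¬ IsUnit (ι₂ π) := fun hu => hπ.not_isUnit (isUnit_of_dvd_one (P.dvd_of_dvd₂ (by
    rw [map_one]
    exact hu.dvd)))
  obtain ⟨q, hq, g, hg⟩ := exists_prime_factor h0 hu
  obtain ⟨q₁, g₁, rfl, rfl, e⟩ := dvd_split₂ P hc hy hγ hπ.ne_zero hg.symm
  rcases hπ.irreducible.isUnit_or_isUnit e.symm with h1 | h1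
  · exact absurd (h1.map ι₂) hq.not_isUnit
  · rw [hg]
    exact (associated_mul_unit_right _ _ (h1.map ι₂)).prime hq

omit [GradedAlgebra 𝒜₁] [GradedAlgebra 𝒜₂] [GradedAlgebra 𝒜] [IsDomain R₁] [IsDomain R₂]
  [IsDomain R] in
theorem mov_large' {ρ : ℕ} {S : Type*} [CommRing S] [Algebra ℂ S] {ℬ : Cl ρ → Submodule ℂ S}
    [GradedAlgebra ℬ] {u : Cl ρ} [IsDomain S] (hS : UniqueFactorizationMonoid S)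
    (ha : ∀ β : Cl ρ, ∃ m : ℕ, MovableF ℬ (β + m • u)) (β : Cl ρ) :
    ∃ M : ℕ, ∀ m, M ≤ m → MovableF ℬ (β + m • u) := by
  have hu : MovableF ℬ u := by
    obtain ⟨m, hm⟩ := ha u
    refine movF_of_mul (k := m + 1) m.succ_pos ?_
    rw [add_smul, one_smul, add_comm]
    exact hm
  obtain ⟨M, hM⟩ := ha β
  refine ⟨M, fun m hm => ?_⟩
  obtain ⟨k, rfl⟩ := Nat.exists_eq_add_of_le hm
  rw [add_smul, ← add_assoc]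
  exact hM.add (hu.nsmul k)

omit [IsDomain R₂] in
/-- A prime divisor which is a pullback from the first factor and a component of the product divisor
is the pullback of a component of the first divisor. -/
theorem dvd_f₁ [Nontrivial R₂] (P : IsProduct 𝒜₁ 𝒜₂ 𝒜 ι₁ ι₂) (hc : Const 𝒜₁) (hy : Crv 𝒜₁)
    {δ : Cl ρ₂} (hf : f₂ ∈ 𝒜₂ δ) (hf0 : f₂ ≠ 0) {π : R₁} {γ : Cl ρ₁} (hγ : π ∈ 𝒜₁ γ)
    (hp : Prime (ι₁ π)) (hd : ι₁ π ∣ ι₁ f₁ * ι₂ f₂) : π ∣ f₁ := by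
  rcases hp.dvd_or_dvd hd with h | ⟨g, hg⟩
  · exact P.dvd_of_dvd₁ h
  · exfalso
    have hπ0 : π ≠ 0 := fun h => hp.ne_zero (by rw [h, map_zero])
    have h0 : ι₁ π * g ≠ 0 := by
      rw [← hg]
      exact fun h => hf0 (P.inj₂ (by rw [h, map_zero]))
    obtain ⟨γ', δ', h1, h2, h3⟩ := deg_split (𝒜 := 𝒜) (h := ι₁ π) (g := g)
      (β := Fin.append 0 δ) (by rw [← hg]; exact mem_one₂ P hf) h0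
    have h4 : γ' = Fin.append γ 0 :=
      DirectSum.degree_eq_of_mem_mem 𝒜 h1 (mem_one₁ P hγ) (left_ne_zero_of_mul h0)
    have h5 : γ + pr1 δ' = 0 := by
      have h6 : pr1 (γ' + δ') = pr1 (Fin.append 0 δ) := by rw [h3]
      rw [pr1_append] at h6
      have h7 : pr1 (γ' + δ') = pr1 γ' + pr1 δ' := rfl
      rwa [h7, h4, pr1_append] at h6
    have h6 : γ = 0 := hy.zero ⟨π, hγ, hπ0⟩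
      (eff_pr P ⟨g, h2, right_ne_zero_of_mul h0⟩).1 h5
    rw [h6] at hγ
    obtain ⟨c, rfl⟩ := hc π hγ
    have hc0 : c ≠ 0 := fun h => hπ0 (by rw [h, map_zero])
    exact hp.not_isUnit (((Ne.isUnit hc0).map (algebraMap ℂ R₁)).map ι₁)

omit [IsDomain R₁] in
theorem dvd_f₂ [Nontrivial R₁] (P : IsProduct 𝒜₁ 𝒜₂ 𝒜 ι₁ ι₂) (hc : Const 𝒜₂) (hy : Crv 𝒜₂)
    {δ : Cl ρ₁} (hf : f₁ ∈ 𝒜₁ δ) (hf0 : f₁ ≠ 0) {π : R₂} {γ : Cl ρ₂} (hγ : π ∈ 𝒜₂ γ)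
    (hp : Prime (ι₂ π)) (hd : ι₂ π ∣ ι₁ f₁ * ι₂ f₂) : π ∣ f₂ := by
  rcases hp.dvd_or_dvd hd with ⟨g, hg⟩ | h
  · exfalso
    have hπ0 : π ≠ 0 := fun h => hp.ne_zero (by rw [h, map_zero])
    have h0 : ι₂ π * g ≠ 0 := by
      rw [← hg]
      exact fun h => hf0 (P.inj₁ (by rw [h, map_zero]))
    obtain ⟨γ', δ', h1, h2, h3⟩ := deg_split (𝒜 := 𝒜) (h := ι₂ π) (g := g)
      (β := Fin.append δ 0) (by rw [← hg]; exact mem_one₁ P hf) h0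
    have h4 : γ' = Fin.append 0 γ :=
      DirectSum.degree_eq_of_mem_mem 𝒜 h1 (mem_one₂ P hγ) (left_ne_zero_of_mul h0)
    have h5 : γ + pr2 δ' = 0 := by
      have h6 : pr2 (γ' + δ') = pr2 (Fin.append δ 0) := by rw [h3]
      rw [pr2_append] at h6
      have h7 : pr2 (γ' + δ') = pr2 γ' + pr2 δ' := rfl
      rwa [h7, h4, pr2_append] at h6
    have h6 : γ = 0 := hy.zero ⟨π, hγ, hπ0⟩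
      (eff_pr P ⟨g, h2, right_ne_zero_of_mul h0⟩).2 h5
    rw [h6] at hγ
    obtain ⟨c, rfl⟩ := hc π hγ
    have hc0 : c ≠ 0 := fun h => hπ0 (by rw [h, map_zero])
    exact hp.not_isUnit (((Ne.isUnit hc0).map (algebraMap ℂ R₂)).map ι₂)
  · exact P.dvd_of_dvd₂ h

omit [GradedAlgebra 𝒜₁] [GradedAlgebra 𝒜₂] [GradedAlgebra 𝒜] [IsDomain R₁] [IsDomain R₂]
  [IsDomain R] in
theorem lf_symm (P : IsProduct 𝒜₁ 𝒜₂ 𝒜 ι₁ ι₂) (φ₁ : R₁ ≃ₐ[ℂ] R₁) (φ₂ : R₂ ≃ₐ[ℂ] R₂) :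
    (P.lf φ₁ φ₂).symm = P.lf φ₁.symm φ₂.symm := by
  refine P.equiv_ext' (fun a => ?_) fun b => ?_
  · rw [AlgEquiv.symm_apply_eq, P.lf₁, P.lf₁, φ₁.apply_symm_apply]
  · rw [AlgEquiv.symm_apply_eq, P.lf₂, P.lf₂, φ₂.apply_symm_apply]

/-- A pair of automorphisms which map the components of the divisors to components. -/
theorem keep (P : IsProduct 𝒜₁ 𝒜₂ 𝒜 ι₁ ι₂) (hc₁ : Const 𝒜₁) (hc₂ : Const 𝒜₂) (hy₁ : Crv 𝒜₁)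
    (hy₂ : Crv 𝒜₂) {δ₁ : Cl ρ₁} {δ₂ : Cl ρ₂} (hf₁ : f₁ ∈ 𝒜₁ δ₁) (hf₁0 : f₁ ≠ 0)
    (hf₂ : f₂ ∈ 𝒜₂ δ₂) (hf₂0 : f₂ ≠ 0) {φ₁ : R₁ ≃ₐ[ℂ] R₁} {φ₂ : R₂ ≃ₐ[ℂ] R₂}
    (h1 : ∀ π, Prime π → π ∣ f₁ → φ₁ π ∣ f₁) (h2 : ∀ π, Prime π → π ∣ f₂ → φ₂ π ∣ f₂) {π : R}
    (hπ : Prime π) (hd : π ∣ ι₁ f₁ * ι₂ f₂) : P.lf φ₁ φ₂ π ∣ ι₁ f₁ * ι₂ f₂ := by
  rcases hπ.dvd_or_dvd hd with ⟨g, hg⟩ | ⟨g, hg⟩
  · obtain ⟨π₁, g₁, rfl, -, e⟩ := dvd_split₁ P hc₂ hy₂ hf₁ hf₁0 hg.symm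
    rw [P.lf₁]
    exact dvd_mul_of_dvd_left (map_dvd ι₁ (h1 π₁ (prime_of₁ P hπ) ⟨g₁, e.symm⟩)) _
  · obtain ⟨π₂, g₂, rfl, -, e⟩ := dvd_split₂ P hc₁ hy₁ hf₂ hf₂0 hg.symm
    rw [P.lf₂]
    exact dvd_mul_of_dvd_right (map_dvd ι₂ (h2 π₂ (prime_of₂ P hπ) ⟨g₂, e.symm⟩)) _

omit [GradedAlgebra 𝒜₁] [GradedAlgebra 𝒜₂] [GradedAlgebra 𝒜] [IsDomain R₁] [IsDomain R₂]
  [IsDomain R] in
theorem keepS_iff {ρ : ℕ} {S : Type*} [CommRing S] [Algebra ℂ S] {ℬ : Cl ρ → Submodule ℂ S}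
    {f : S} {φ : S ≃ₐ[ℂ] S} {σ : Cl ρ ≃+ Cl ρ} : IsPsAutS ℬ {π | π ∣ f} φ σ ↔
      Induces ℬ φ σ ∧ (∀ π, Prime π → π ∣ f → φ π ∣ f) ∧ ∀ π, Prime π → π ∣ f → φ.symm π ∣ f := by
  refine ⟨fun h => ⟨h.1, fun π hπ hd => (h.2 π hπ).2 hd, fun π hπ hd => ?_⟩,
    fun h => ⟨h.1, fun π hπ => ⟨fun hd => ?_, fun hd => h.2.1 π hπ hd⟩⟩⟩
  · exact (h.2 (φ.symm π) (prime_map φ.symm hπ)).1 (by
      change φ (φ.symm π) ∣ f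
      rwa [φ.apply_symm_apply])
  · have h1 := h.2.2 (φ π) (prime_map φ hπ) hd
    rwa [φ.symm_apply_apply] at h1

theorem lf_psAutS (P : IsProduct 𝒜₁ 𝒜₂ 𝒜 ι₁ ι₂) (hc₁ : Const 𝒜₁) (hc₂ : Const 𝒜₂)
    (hy₁ : Crv 𝒜₁) (hy₂ : Crv 𝒜₂) {δ₁ : Cl ρ₁} {δ₂ : Cl ρ₂} (hf₁ : f₁ ∈ 𝒜₁ δ₁) (hf₁0 : f₁ ≠ 0)
    (hf₂ : f₂ ∈ 𝒜₂ δ₂) (hf₂0 : f₂ ≠ 0) {φ₁ : R₁ ≃ₐ[ℂ] R₁} {φ₂ : R₂ ≃ₐ[ℂ] R₂}
    {σ₁ : Cl ρ₁ ≃+ Cl ρ₁} {σ₂ : Cl ρ₂ ≃+ Cl ρ₂} (h1 : IsPsAutS 𝒜₁ {π | π ∣ f₁} φ₁ σ₁)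
    (h2 : IsPsAutS 𝒜₂ {π | π ∣ f₂} φ₂ σ₂) :
    IsPsAutS 𝒜 {π | π ∣ ι₁ f₁ * ι₂ f₂} (P.lf φ₁ φ₂) (sp σ₁ σ₂) := by
  rw [keepS_iff] at h1 h2 ⊢
  refine ⟨lf_induces P h1.1 h2.1, fun π hπ hd =>
    keep P hc₁ hc₂ hy₁ hy₂ hf₁ hf₁0 hf₂ hf₂0 h1.2.1 h2.2.1 hπ hd, fun π hπ hd => ?_⟩
  rw [lf_symm]
  exact keep P hc₁ hc₂ hy₁ hy₂ hf₁ hf₁0 hf₂ hf₂0 h1.2.2 h2.2.2 hπ hd

/-- A pseudo-automorphism of the product of two pairs which acts trivially on the classes is given by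
pseudo-automorphisms of the pairs. -/
theorem split_psAutS (hR : UniqueFactorizationMonoid R) (P : IsProduct 𝒜₁ 𝒜₂ 𝒜 ι₁ ι₂)
    (hc₁ : Const 𝒜₁) (hc₂ : Const 𝒜₂) (hy₁ : Crv 𝒜₁) (hy₂ : Crv 𝒜₂) {δ₁ : Cl ρ₁} {δ₂ : Cl ρ₂}
    (hf₁ : f₁ ∈ 𝒜₁ δ₁) (hf₁0 : f₁ ≠ 0) (hf₂ : f₂ ∈ 𝒜₂ δ₂) (hf₂0 : f₂ ≠ 0) {φ : R ≃ₐ[ℂ] R}
    (hφ : IsPsAutS 𝒜 {π | π ∣ ι₁ f₁ * ι₂ f₂} φ (AddEquiv.refl _)) :
    ∃ (φ₁ : R₁ ≃ₐ[ℂ] R₁) (φ₂ : R₂ ≃ₐ[ℂ] R₂), IsPsAutS 𝒜₁ {π | π ∣ f₁} φ₁ (AddEquiv.refl _) ∧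
      IsPsAutS 𝒜₂ {π | π ∣ f₂} φ₂ (AddEquiv.refl _) ∧ φ = P.lf φ₁ φ₂ := by
  obtain ⟨φ₁, φ₂, h1, h2, rfl⟩ := split_aut P hc₁ hc₂ hφ.1
  rw [keepS_iff] at hφ
  obtain ⟨-, h3, h4⟩ := hφ
  rw [lf_symm] at h4
  have h1' : Induces 𝒜₁ φ₁.symm (AddEquiv.refl _) := induces_inv h1
  have h2' : Induces 𝒜₂ φ₂.symm (AddEquiv.refl _) := induces_inv h2
  have k1 : ∀ (ψ₁ : R₁ ≃ₐ[ℂ] R₁) (ψ₂ : R₂ ≃ₐ[ℂ] R₂), Induces 𝒜₁ ψ₁ (AddEquiv.refl _) →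
      (∀ π, Prime π → π ∣ ι₁ f₁ * ι₂ f₂ → P.lf ψ₁ ψ₂ π ∣ ι₁ f₁ * ι₂ f₂) →
      ∀ π, Prime π → π ∣ f₁ → ψ₁ π ∣ f₁ := by
    rintro ψ₁ ψ₂ hψ k π hπ ⟨g, hg⟩
    obtain ⟨γ, hγ⟩ := homog_of_mul (𝒜 := 𝒜₁) (a := π) (b := g) (by rwa [← hg]) (by rwa [← hg])
    have h5 := k (ι₁ π) (prime_mk₁ hR P hc₂ hy₂ hπ hγ)
      (dvd_mul_of_dvd_left (map_dvd ι₁ ⟨g, hg⟩) _)
    rw [P.lf₁] at h5
    exact dvd_f₁ P hc₁ hy₁ hf₂ hf₂0 (hψ γ π hγ)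
      (prime_mk₁ hR P hc₂ hy₂ (prime_map ψ₁ hπ) (hψ γ π hγ)) h5
  have k2 : ∀ (ψ₁ : R₁ ≃ₐ[ℂ] R₁) (ψ₂ : R₂ ≃ₐ[ℂ] R₂), Induces 𝒜₂ ψ₂ (AddEquiv.refl _) →
      (∀ π, Prime π → π ∣ ι₁ f₁ * ι₂ f₂ → P.lf ψ₁ ψ₂ π ∣ ι₁ f₁ * ι₂ f₂) →
      ∀ π, Prime π → π ∣ f₂ → ψ₂ π ∣ f₂ := by
    rintro ψ₁ ψ₂ hψ k π hπ ⟨g, hg⟩
    obtain ⟨γ, hγ⟩ := homog_of_mul (𝒜 := 𝒜₂) (a := π) (b := g) (by rwa [← hg]) (by rwa [← hg])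
    have h5 := k (ι₂ π) (prime_mk₂ hR P hc₁ hy₁ hπ hγ)
      (dvd_mul_of_dvd_right (map_dvd ι₂ ⟨g, hg⟩) _)
    rw [P.lf₂] at h5
    exact dvd_f₂ P hc₂ hy₂ hf₁ hf₁0 (hψ γ π hγ)
      (prime_mk₂ hR P hc₁ hy₁ (prime_map ψ₂ hπ) (hψ γ π hγ)) h5
  exact ⟨φ₁, φ₂, keepS_iff.2 ⟨h1, k1 _ _ h1 h3, k1 _ _ h1' h4⟩,
    keepS_iff.2 ⟨h2, k2 _ _ h2 h3, k2 _ _ h2' h4⟩, rfl⟩

/-- The product of two pairs which satisfy the movable cone conjecture satisfies the movable cone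
conjecture. -/
theorem prod_movPair (hR : UniqueFactorizationMonoid R) (P : IsProduct 𝒜₁ 𝒜₂ 𝒜 ι₁ ι₂)
    (F₁ : IsMovConePair 𝒜₁ (pr1 v) {π | π ∣ f₁}) (F₂ : IsMovConePair 𝒜₂ (pr2 v) {π | π ∣ f₂})
    (hc₁ : Const 𝒜₁) (hc₂ : Const 𝒜₂) {δ₁ : Cl ρ₁} {δ₂ : Cl ρ₂} (hf₁ : f₁ ∈ 𝒜₁ δ₁)
    (hf₁0 : f₁ ≠ 0) (hf₂ : f₂ ∈ 𝒜₂ δ₂) (hf₂0 : f₂ ≠ 0) :
    IsMovConePair 𝒜 v {π | π ∣ ι₁ f₁ * ι₂ f₂} where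
  ufd := hR
  sections := fun β => by
    obtain ⟨M, hM⟩ := sections_large' F₁.sections (pr1 β)
    obtain ⟨N, hN⟩ := sections_large' F₂.sections (pr2 β)
    refine ⟨M + N, eff_mk P ?_ ?_, eff_mk P ?_ ?_⟩
    · exact (hM (M + N) (by omega)).1
    · exact (hN (M + N) (by omega)).1
    · exact (hM (M + N) (by omega)).2
    · exact (hN (M + N) (by omega)).2
  ample := fun β => by
    obtain ⟨M, hM⟩ := mov_large' F₁.ufd F₁.ample (pr1 β)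
    obtain ⟨N, hN⟩ := mov_large' F₂.ufd F₂.ample (pr2 β)
    exact ⟨M + N, mov_mk hR P hc₁ F₁.curve hc₂ F₂.curve (hM (M + N) (by omega))
      (hN (M + N) (by omega))⟩
  curve := crv_prod P F₁.curve F₂.curve
  kernel := by
    obtain ⟨T₁, hT₁, h1⟩ := F₁.kernel
    obtain ⟨T₂, hT₂, h2⟩ := F₂.kernel
    refine ⟨Set.image2 P.lf T₁ T₂, Set.Finite.image2 _ hT₁ hT₂, fun φ hφ => ?_⟩
    obtain ⟨φ₁, φ₂, h3, h4, rfl⟩ := split_psAutS hR P hc₁ hc₂ F₁.curve F₂.curve hf₁ hf₁0 hf₂ hf₂0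
      hφ
    obtain ⟨t₁, ht₁, s₁, hs₁, rfl⟩ := h1 φ₁ h3
    obtain ⟨t₂, ht₂, s₂, hs₂, rfl⟩ := h2 φ₂ h4
    exact ⟨P.lf t₁ t₂, ⟨t₁, ht₁, t₂, ht₂, rfl⟩, P.lf s₁ s₂, lf_scal P hs₁ hs₂, P.lf_mul _ _ _ _⟩
  cone := by
    classical
    obtain ⟨P₁, hP₁, h1⟩ := F₁.cone
    obtain ⟨P₂, hP₂, h2⟩ := F₂.cone
    refine ⟨P₁.image j1 ∪ P₂.image j2, fun a ha => ?_, fun b hb => ?_⟩
    · rcases Finset.mem_union.1 ha with h | h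
      · obtain ⟨x, hx, rfl⟩ := Finset.mem_image.1 h
        obtain ⟨⟨β, rfl⟩, h3, h4⟩ := hP₁ x hx
        exact ⟨⟨_, j1_rv β⟩, mov_j1 P hc₂ F₂.curve h3, eff_j1 P h4⟩
      · obtain ⟨x, hx, rfl⟩ := Finset.mem_image.1 h
        obtain ⟨⟨β, rfl⟩, h3, h4⟩ := hP₂ x hx
        exact ⟨⟨_, j2_rv β⟩, mov_j2 P hc₁ F₁.curve h3, eff_j2 P h4⟩
    · obtain ⟨φ₁, σ₁, h3, h4⟩ := h1 (q1 b) ⟨mov_q1 P hc₂ F₂.curve hb.1, eff_q1 P hb.2⟩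
      obtain ⟨φ₂, σ₂, h5, h6⟩ := h2 (q2 b) ⟨mov_q2 P hc₁ F₁.curve hb.1, eff_q2 P hb.2⟩
      refine ⟨P.lf φ₁ φ₂, sp σ₁ σ₂, lf_psAutS P hc₁ hc₂ F₁.curve F₂.curve hf₁ hf₁0 hf₂ hf₂0 h3 h5,
        ?_⟩
      rw [ext_sp]
      exact cone_add (cone_mono Finset.subset_union_left (cone_image j1 h4))
        (cone_mono Finset.subset_union_right (cone_image j2 h6))

end Pool.Agent.U201.PR
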