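import Pool.Agent.U201.PR.PairFin
import Pool.Agent.U201.PR.PairMov
import Pool.Agent.U201.PR.MovFin
import Pool.Agent.U201.PR.BothDefs

/-!
# Iterated products of pairs and both cone conjectures
-/

set_option autoImplicit false

namespace Pool.Agent.U201.PR

open Pool.Agent.X324.CF Pool.Agent.U201.EC Pool.Agent.U201.PC Pool.Agent.U201.CM
  Pool.Agent.U201.GC

theorem bothGood_prod {𝒞 : Pair → Prop} (h𝒞 : ∀ F, 𝒞 F → BothGood F) {F : Pair}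
    (hF : FactorialPairProductOf 𝒞 F) : BothGood F := by
  induction hF with
  | factor F h => exact h𝒞 F h
  | prod F₁ F₂ R 𝒜 ι₁ ι₂ hR _ _ P ih1 ih2 =>
    obtain ⟨δ₁, hδ₁⟩ := ih1.1.homog
    obtain ⟨δ₂, hδ₂⟩ := ih2.1.homog
    refine ⟨isGoodPair_prod ih1.1 ih2.1 P, prod_pair P ?_ ?_ ih1.1.const ih2.1.const
      (dense₁ ih1.1) (dense₂ ih2.1) ih1.1.ne_zero ih2.1.ne_zero,
      prod_movPair hR P ?_ ?_ ih1.1.const ih2.1.const hδ₁ ih1.1.ne_zero hδ₂ ih2.1.ne_zero⟩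
    · rw [pr1_append]
      exact ih1.2.1
    · rw [pr2_append]
      exact ih2.2.1
    · rw [pr1_append]
      exact ih1.2.2
    · rw [pr2_append]
      exact ih2.2.2

/-- The cones of a product, and its pseudo-automorphisms which act trivially on the classes. -/
theorem both_cones_prod {F₁ F₂ : Pair} {R : Type} [CommRing R] [Algebra ℂ R] [IsDomain R]
    {𝒜 : Cl (F₁.ρ + F₂.ρ) → Submodule ℂ R} [GradedAlgebra 𝒜] {ι₁ : F₁.R →ₐ[ℂ] R}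
    {ι₂ : F₂.R →ₐ[ℂ] R} (hR : UniqueFactorizationMonoid R) (h1 : BothGood F₁) (h2 : BothGood F₂)
    (P : IsProduct F₁.𝒜 F₂.𝒜 𝒜 ι₁ ι₂) :
    (∀ b, b ∈ NefF 𝒜 (Fin.append F₁.u F₂.u) ↔
      pr1 b ∈ NefF F₁.𝒜 F₁.u ∧ pr2 b ∈ NefF F₂.𝒜 F₂.u) ∧
    (∀ b, b ∈ MovF 𝒜 ↔ pr1 b ∈ MovF F₁.𝒜 ∧ pr2 b ∈ MovF F₂.𝒜) ∧
    (∀ b, b ∈ EffF 𝒜 ↔ pr1 b ∈ EffF F₁.𝒜 ∧ pr2 b ∈ EffF F₂.𝒜) ∧
    (∀ φ : R ≃ₐ[ℂ] R, IsPsAutS 𝒜 {π | π ∣ ι₁ F₁.f * ι₂ F₂.f} φ (AddEquiv.refl _) →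
      ∃ (φ₁ : F₁.R ≃ₐ[ℂ] F₁.R) (φ₂ : F₂.R ≃ₐ[ℂ] F₂.R),
        IsPsAutS F₁.𝒜 {π | π ∣ F₁.f} φ₁ (AddEquiv.refl _) ∧
        IsPsAutS F₂.𝒜 {π | π ∣ F₂.f} φ₂ (AddEquiv.refl _) ∧
        (∀ a, φ (ι₁ a) = ι₁ (φ₁ a)) ∧ ∀ a, φ (ι₂ a) = ι₂ (φ₂ a)) := by
  obtain ⟨h3, h4, -⟩ := pair_cones_prod ⟨h1.1, h1.2.1⟩ ⟨h2.1, h2.2.1⟩ P
  have c1 : Crv F₁.𝒜 := h1.2.2.curve
  have c2 : Crv F₂.𝒜 := h2.2.2.curve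
  refine ⟨h3, fun b => ⟨fun hb => ⟨mov_q1 P h2.1.const c2 hb, mov_q2 P h1.1.const c1 hb⟩, ?_⟩,
    h4, fun φ hφ => ?_⟩
  · rintro ⟨h5, h6⟩
    rw [← j_add b]
    exact movF_add (mov_j1 P h2.1.const c2 h5) (mov_j2 P h1.1.const c1 h6)
  · obtain ⟨δ₁, hδ₁⟩ := h1.1.homog
    obtain ⟨δ₂, hδ₂⟩ := h2.1.homog
    obtain ⟨φ₁, φ₂, h5, h6, rfl⟩ := split_psAutS hR P h1.1.const h2.1.const c1 c2 hδ₁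
      h1.1.ne_zero hδ₂ h2.1.ne_zero hφ
    exact ⟨φ₁, φ₂, h5, h6, P.lf₁ _ _, P.lf₂ _ _⟩

end Pool.Agent.U201.PR
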