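import Pool.Agent.U201.PR.Kernel

/-!
# The cones of products
-/

set_option autoImplicit false

namespace Pool.Agent.U201.PR

open Finset Filter Topology
open Pool.Agent.X324.CF Pool.Agent.U201.EC
open Pool.Agent.Y167 (cone cone_add cone_smul cone_le cone_mono cone_sum mem_cone_self
  zero_mem_cone cone_image cone_ind)
open scoped TensorProduct

theorem hull_lin {W W' : Type*} [AddCommGroup W] [Module ℝ W] [AddCommGroup W'] [Module ℝ W']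
    {P : Set W} {Q : Set W'} {g : W →ₗ[ℝ] W'} (h : ∀ a ∈ P, g a ∈ coneHull Q) {x : W}
    (hx : x ∈ coneHull P) : g x ∈ coneHull Q := by
  refine hull_ind (p := fun x => g x ∈ coneHull Q) ?_ ?_ ?_ h hx
  · rw [map_zero]; exact hull_zero
  · intro a b ha hb
    rw [map_add]
    exact hull_add ha hb
  · intro t a ht ha
    rw [map_smul]
    exact hull_smul ht ha

variable {ρ₁ ρ₂ : ℕ}

/-- The restrictions of real classes, and the inclusions of the real classes of the factors. -/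
def q1 : (Fin (ρ₁ + ρ₂) → ℝ) →ₗ[ℝ] (Fin ρ₁ → ℝ) where
  toFun := pr1
  map_add' _ _ := rfl
  map_smul' _ _ := rfl

def q2 : (Fin (ρ₁ + ρ₂) → ℝ) →ₗ[ℝ] (Fin ρ₂ → ℝ) where
  toFun := pr2
  map_add' _ _ := rfl
  map_smul' _ _ := rfl

theorem append_add {α : Type*} [Add α] (a b : Fin ρ₁ → α) (c d : Fin ρ₂ → α) :
    Fin.append (a + b) (c + d) = Fin.append a c + Fin.append b d := by
  apply ext_pr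
  · rw [pr1_append]
    change _ = pr1 (Fin.append a c) + pr1 (Fin.append b d)
    rw [pr1_append, pr1_append]
  · rw [pr2_append]
    change _ = pr2 (Fin.append a c) + pr2 (Fin.append b d)
    rw [pr2_append, pr2_append]

def j1 : (Fin ρ₁ → ℝ) →ₗ[ℝ] (Fin (ρ₁ + ρ₂) → ℝ) where
  toFun a := Fin.append a 0
  map_add' a b := by rw [← append_add, add_zero]
  map_smul' c a := by
    apply ext_pr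
    · rw [pr1_append]
      change _ = c • pr1 (Fin.append a 0)
      rw [pr1_append]
    · rw [pr2_append]
      change _ = c • pr2 (Fin.append a (0 : Fin ρ₂ → ℝ))
      rw [pr2_append, smul_zero]

def j2 : (Fin ρ₂ → ℝ) →ₗ[ℝ] (Fin (ρ₁ + ρ₂) → ℝ) where
  toFun a := Fin.append 0 a
  map_add' a b := by rw [← append_add, add_zero]
  map_smul' c a := by
    apply ext_pr
    · rw [pr1_append]
      change _ = c • pr1 (Fin.append (0 : Fin ρ₁ → ℝ) a)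
      rw [pr1_append, smul_zero]
    · rw [pr2_append]
      change _ = c • pr2 (Fin.append (0 : Fin ρ₁ → ℝ) a)
      rw [pr2_append]

theorem j_add (b : Fin (ρ₁ + ρ₂) → ℝ) : j1 (q1 b) + j2 (q2 b) = b := by
  change Fin.append (pr1 b) 0 + Fin.append 0 (pr2 b) = b
  rw [← append_add, add_zero, zero_add, append_pr]

theorem q1_rv (β : Cl (ρ₁ + ρ₂)) : q1 (rv β) = rv (pr1 β) := rfl

theorem q2_rv (β : Cl (ρ₁ + ρ₂)) : q2 (rv β) = rv (pr2 β) := rfl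

theorem j1_rv (β : Cl ρ₁) : (j1 (rv β) : Fin (ρ₁ + ρ₂) → ℝ) = rv (Fin.append β 0) := by
  apply ext_pr
  · change pr1 (Fin.append (rv β) 0) = q1 (rv (Fin.append β 0))
    rw [pr1_append, q1_rv, pr1_append]
  · change pr2 (Fin.append (rv β) (0 : Fin ρ₂ → ℝ)) = q2 (rv (Fin.append β 0))
    rw [pr2_append, q2_rv, pr2_append, rv_zero]

theorem j2_rv (β : Cl ρ₂) : (j2 (rv β) : Fin (ρ₁ + ρ₂) → ℝ) = rv (Fin.append 0 β) := by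
  apply ext_pr
  · change pr1 (Fin.append (0 : Fin ρ₁ → ℝ) (rv β)) = q1 (rv (Fin.append 0 β))
    rw [pr1_append, q1_rv, pr1_append, rv_zero]
  · change pr2 (Fin.append (0 : Fin ρ₁ → ℝ) (rv β)) = q2 (rv (Fin.append 0 β))
    rw [pr2_append, q2_rv, pr2_append]

/-- The action of a pair of automorphisms on classes. -/
def sp (σ₁ : Cl ρ₁ ≃+ Cl ρ₁) (σ₂ : Cl ρ₂ ≃+ Cl ρ₂) : Cl (ρ₁ + ρ₂) ≃+ Cl (ρ₁ + ρ₂) where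
  toFun β := Fin.append (σ₁ (pr1 β)) (σ₂ (pr2 β))
  invFun β := Fin.append (σ₁.symm (pr1 β)) (σ₂.symm (pr2 β))
  left_inv β := by
    change Fin.append _ _ = β
    rw [pr1_append, pr2_append, σ₁.symm_apply_apply, σ₂.symm_apply_apply, append_pr]
  right_inv β := by
    change Fin.append _ _ = β
    rw [pr1_append, pr2_append, σ₁.apply_symm_apply, σ₂.apply_symm_apply, append_pr]
  map_add' β γ := by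
    rw [← append_add]
    have h1 : pr1 (β + γ) = pr1 β + pr1 γ := rfl
    have h2 : pr2 (β + γ) = pr2 β + pr2 γ := rfl
    rw [h1, h2, map_add, map_add]

theorem pr1_sp (σ₁ : Cl ρ₁ ≃+ Cl ρ₁) (σ₂ : Cl ρ₂ ≃+ Cl ρ₂) (β : Cl (ρ₁ + ρ₂)) :
    pr1 (sp σ₁ σ₂ β) = σ₁ (pr1 β) := pr1_append _ _

theorem pr2_sp (σ₁ : Cl ρ₁ ≃+ Cl ρ₁) (σ₂ : Cl ρ₂ ≃+ Cl ρ₂) (β : Cl (ρ₁ + ρ₂)) :
    pr2 (sp σ₁ σ₂ β) = σ₂ (pr2 β) := pr2_append _ _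

theorem ext_sp (σ₁ : Cl ρ₁ ≃+ Cl ρ₁) (σ₂ : Cl ρ₂ ≃+ Cl ρ₂) (b : Fin (ρ₁ + ρ₂) → ℝ) :
    ext (sp σ₁ σ₂) b = j1 (ext σ₁ (q1 b)) + j2 (ext σ₂ (q2 b)) := by
  have h1 : rl (sp σ₁ σ₂) = j1 ∘ₗ rl σ₁ ∘ₗ q1 + j2 ∘ₗ rl σ₂ ∘ₗ q2 := by
    refine ext_rv' fun β => ?_
    rw [rl_rv, LinearMap.add_apply, LinearMap.comp_apply, LinearMap.comp_apply,
      LinearMap.comp_apply, LinearMap.comp_apply, q1_rv, q2_rv, rl_rv, rl_rv, j1_rv, j2_rv,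
      ← rv_add, ← append_add, add_zero, zero_add]
    rfl
  exact LinearMap.congr_fun h1 b

variable {R₁ R₂ R : Type*} [CommRing R₁] [Algebra ℂ R₁] [CommRing R₂] [Algebra ℂ R₂]
    [CommRing R] [Algebra ℂ R] {𝒜₁ : Cl ρ₁ → Submodule ℂ R₁} {𝒜₂ : Cl ρ₂ → Submodule ℂ R₂}
    {𝒜 : Cl (ρ₁ + ρ₂) → Submodule ℂ R} {ι₁ : R₁ →ₐ[ℂ] R} {ι₂ : R₂ →ₐ[ℂ] R}
    {v : Cl (ρ₁ + ρ₂)}

section Nef

variable [GradedAlgebra 𝒜₁] [GradedAlgebra 𝒜₂]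

theorem cont_lin {n m : ℕ} (g : (Fin n → ℝ) →ₗ[ℝ] (Fin m → ℝ)) : Continuous g :=
  LinearMap.continuous_of_finiteDimensional g

theorem nef_q1 (P : IsProduct 𝒜₁ 𝒜₂ 𝒜 ι₁ ι₂) (hp : ∃ p : R₂ →ₐ[ℂ] ℂ, Semistable 𝒜₂ (pr2 v) p)
    {b : Fin (ρ₁ + ρ₂) → ℝ} (hb : b ∈ NefF 𝒜 v) : q1 b ∈ NefF 𝒜₁ (pr1 v) := by
  refine map_mem_closure (cont_lin q1) hb fun x hx => hull_lin (g := q1) ?_ hx
  rintro _ ⟨β, hβ, rfl⟩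
  exact hull_mem ⟨pr1 β, semiample_pr1 P hp hβ, rfl⟩

theorem nef_q2 (P : IsProduct 𝒜₁ 𝒜₂ 𝒜 ι₁ ι₂) (hp : ∃ p : R₁ →ₐ[ℂ] ℂ, Semistable 𝒜₁ (pr1 v) p)
    {b : Fin (ρ₁ + ρ₂) → ℝ} (hb : b ∈ NefF 𝒜 v) : q2 b ∈ NefF 𝒜₂ (pr2 v) := by
  refine map_mem_closure (cont_lin q2) hb fun x hx => hull_lin (g := q2) ?_ hx
  rintro _ ⟨β, hβ, rfl⟩
  exact hull_mem ⟨pr2 β, semiample_pr2 P hp hβ, rfl⟩

theorem nef_j1 (P : IsProduct 𝒜₁ 𝒜₂ 𝒜 ι₁ ι₂) {a : Fin ρ₁ → ℝ} (ha : a ∈ NefF 𝒜₁ (pr1 v)) :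
    (j1 a : Fin (ρ₁ + ρ₂) → ℝ) ∈ NefF 𝒜 v := by
  refine map_mem_closure (cont_lin j1) ha fun x hx => hull_lin (g := j1) ?_ hx
  rintro _ ⟨β, hβ, rfl⟩
  refine hull_mem ⟨Fin.append β 0, semiample_mk P ?_ ?_, j1_rv β⟩
  · rwa [pr1_append]
  · rw [pr2_append]
    exact SemiampleF.zero

theorem nef_j2 (P : IsProduct 𝒜₁ 𝒜₂ 𝒜 ι₁ ι₂) {a : Fin ρ₂ → ℝ} (ha : a ∈ NefF 𝒜₂ (pr2 v)) :
    (j2 a : Fin (ρ₁ + ρ₂) → ℝ) ∈ NefF 𝒜 v := by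
  refine map_mem_closure (cont_lin j2) ha fun x hx => hull_lin (g := j2) ?_ hx
  rintro _ ⟨β, hβ, rfl⟩
  refine hull_mem ⟨Fin.append 0 β, semiample_mk P ?_ ?_, j2_rv β⟩
  · rw [pr1_append]
    exact SemiampleF.zero
  · rwa [pr2_append]

omit [GradedAlgebra 𝒜₁] [GradedAlgebra 𝒜₂] in
theorem eff_q1 (P : IsProduct 𝒜₁ 𝒜₂ 𝒜 ι₁ ι₂) {b : Fin (ρ₁ + ρ₂) → ℝ} (hb : b ∈ EffF 𝒜) :
    q1 b ∈ EffF 𝒜₁ := by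
  refine hull_lin (g := q1) ?_ hb
  rintro _ ⟨β, hβ, rfl⟩
  exact hull_mem ⟨pr1 β, (eff_pr P hβ).1, rfl⟩

omit [GradedAlgebra 𝒜₁] [GradedAlgebra 𝒜₂] in
theorem eff_q2 (P : IsProduct 𝒜₁ 𝒜₂ 𝒜 ι₁ ι₂) {b : Fin (ρ₁ + ρ₂) → ℝ} (hb : b ∈ EffF 𝒜) :
    q2 b ∈ EffF 𝒜₂ := by
  refine hull_lin (g := q2) ?_ hb
  rintro _ ⟨β, hβ, rfl⟩
  exact hull_mem ⟨pr2 β, (eff_pr P hβ).2, rfl⟩

variable [IsDomain R] [Nontrivial R₁] [Nontrivial R₂]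

omit [GradedAlgebra 𝒜₁] in
theorem eff_j1 (P : IsProduct 𝒜₁ 𝒜₂ 𝒜 ι₁ ι₂) {a : Fin ρ₁ → ℝ} (ha : a ∈ EffF 𝒜₁) :
    (j1 a : Fin (ρ₁ + ρ₂) → ℝ) ∈ EffF 𝒜 := by
  refine hull_lin (g := j1) ?_ ha
  rintro _ ⟨β, hβ, rfl⟩
  refine hull_mem ⟨Fin.append β 0, eff_mk P ?_ ?_, j1_rv β⟩
  · rwa [pr1_append]
  · rw [pr2_append]
    exact ⟨1, SetLike.GradedOne.one_mem, one_ne_zero⟩

omit [GradedAlgebra 𝒜₂] in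
theorem eff_j2 (P : IsProduct 𝒜₁ 𝒜₂ 𝒜 ι₁ ι₂) {a : Fin ρ₂ → ℝ} (ha : a ∈ EffF 𝒜₂) :
    (j2 a : Fin (ρ₁ + ρ₂) → ℝ) ∈ EffF 𝒜 := by
  refine hull_lin (g := j2) ?_ ha
  rintro _ ⟨β, hβ, rfl⟩
  refine hull_mem ⟨Fin.append 0 β, eff_mk P ?_ ?_, j2_rv β⟩
  · rw [pr1_append]
    exact ⟨1, SetLike.GradedOne.one_mem, one_ne_zero⟩
  · rwa [pr2_append]

end Nef

section Aut

variable [GradedAlgebra 𝒜₁] [GradedAlgebra 𝒜₂]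

omit [GradedAlgebra 𝒜₁] [GradedAlgebra 𝒜₂] in
theorem lf_induces (P : IsProduct 𝒜₁ 𝒜₂ 𝒜 ι₁ ι₂) {φ₁ : R₁ ≃ₐ[ℂ] R₁} {φ₂ : R₂ ≃ₐ[ℂ] R₂}
    {σ₁ : Cl ρ₁ ≃+ Cl ρ₁} {σ₂ : Cl ρ₂ ≃+ Cl ρ₂} (h1 : Induces 𝒜₁ φ₁ σ₁) (h2 : Induces 𝒜₂ φ₂ σ₂) :
    Induces 𝒜 (P.lf φ₁ φ₂) (sp σ₁ σ₂) := by
  intro β r hr
  exact P.ind (S := (𝒜 (sp σ₁ σ₂ β)).comap (P.lf φ₁ φ₂).toLinearMap) (fun a ha b hb => by
    change P.lf φ₁ φ₂ (ι₁ a * ι₂ b) ∈ 𝒜 (sp σ₁ σ₂ β)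
    rw [map_mul, P.lf₁, P.lf₂]
    refine P.mem ?_ ?_
    · rw [pr1_sp]
      exact h1 _ a ha
    · rw [pr2_sp]
      exact h2 _ b hb) hr

theorem lf_aut (P : IsProduct 𝒜₁ 𝒜₂ 𝒜 ι₁ ι₂) {φ₁ : R₁ ≃ₐ[ℂ] R₁} {φ₂ : R₂ ≃ₐ[ℂ] R₂}
    {σ₁ : Cl ρ₁ ≃+ Cl ρ₁} {σ₂ : Cl ρ₂ ≃+ Cl ρ₂} (h1 : IsAut 𝒜₁ (pr1 v) φ₁ σ₁)
    (h2 : IsAut 𝒜₂ (pr2 v) φ₂ σ₂) : IsAut 𝒜 v (P.lf φ₁ φ₂) (sp σ₁ σ₂) := by
  refine ⟨lf_induces P h1.1 h2.1, fun p => ?_⟩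
  rw [semistable_iff P, semistable_iff P, pr1_sp, pr2_sp, h1.2, h2.2]

end Aut

/-- The cone condition for the product. -/
theorem cone_prod [GradedAlgebra 𝒜₁] [GradedAlgebra 𝒜₂] [IsDomain R] [Nontrivial R₁]
    [Nontrivial R₂] (P : IsProduct 𝒜₁ 𝒜₂ 𝒜 ι₁ ι₂) (F₁ : IsConeVariety 𝒜₁ (pr1 v))
    (F₂ : IsConeVariety 𝒜₂ (pr2 v)) :
    ∃ Q : Finset (Fin (ρ₁ + ρ₂) → ℝ), (∀ a ∈ Q, (∃ β, a = rv β) ∧ a ∈ NefF 𝒜 v ∩ EffF 𝒜) ∧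
      ∀ b ∈ NefF 𝒜 v ∩ EffF 𝒜, ∃ φ σ, IsAut 𝒜 v φ σ ∧ ext σ b ∈ cone Q := by
  classical
  obtain ⟨P₁, hP₁, h1⟩ := F₁.cone
  obtain ⟨P₂, hP₂, h2⟩ := F₂.cone
  refine ⟨P₁.image j1 ∪ P₂.image j2, fun a ha => ?_, fun b hb => ?_⟩
  · rcases Finset.mem_union.1 ha with h | h
    · obtain ⟨x, hx, rfl⟩ := Finset.mem_image.1 h
      obtain ⟨⟨β, rfl⟩, h3, h4⟩ := hP₁ x hx
      exact ⟨⟨_, j1_rv β⟩, nef_j1 P h3, eff_j1 P h4⟩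
    · obtain ⟨x, hx, rfl⟩ := Finset.mem_image.1 h
      obtain ⟨⟨β, rfl⟩, h3, h4⟩ := hP₂ x hx
      exact ⟨⟨_, j2_rv β⟩, nef_j2 P h3, eff_j2 P h4⟩
  · obtain ⟨φ₁, σ₁, h3, h4⟩ := h1 (q1 b) ⟨nef_q1 P F₂.point hb.1, eff_q1 P hb.2⟩
    obtain ⟨φ₂, σ₂, h5, h6⟩ := h2 (q2 b) ⟨nef_q2 P F₁.point hb.1, eff_q2 P hb.2⟩
    refine ⟨P.lf φ₁ φ₂, sp σ₁ σ₂, lf_aut P h3 h5, ?_⟩
    rw [ext_sp]
    exact cone_add (cone_mono Finset.subset_union_left (cone_image j1 h4))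
      (cone_mono Finset.subset_union_right (cone_image j2 h6))

end Pool.Agent.U201.PR
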