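import Pool.Agent.U201.EC.Defs

/-!
# Products `F₁ × F₂` of varieties: definitions

The varieties are given by their Cox rings, as in `Pool.Agent.X324.CF.Defs` and
`Pool.Agent.U201.EC.Defs`.
-/

set_option autoImplicit false

namespace Pool.Agent.U201.PR

open Pool.Agent.X324.CF Pool.Agent.U201.EC
open scoped TensorProduct

variable {ρ₁ ρ₂ : ℕ}

/-- The restriction to `F₁ × point` of a class of `F₁ × F₂`; it is also used for real classes. -/
def pr1 {α : Type*} (β : Fin (ρ₁ + ρ₂) → α) : Fin ρ₁ → α := fun i => β (Fin.castAdd ρ₂ i)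

/-- The restriction to `point × F₂` of a class of `F₁ × F₂`; it is also used for real classes. -/
def pr2 {α : Type*} (β : Fin (ρ₁ + ρ₂) → α) : Fin ρ₂ → α := fun i => β (Fin.natAdd ρ₁ i)

/-- `F` is the product of `F₁` and `F₂`: the class group is the sum of the class groups, and by the
Künneth formula the Cox ring `R` is the tensor product of the Cox rings, with the piece of degree
`(β₁, β₂)` spanned by the products of sections of `O(β₁)` and sections of `O(β₂)`. Here `ι₁` and `ι₂`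
are the inclusions of the Cox rings (the pullbacks of sections by the projections). -/
structure IsProduct {R₁ R₂ R : Type*} [CommRing R₁] [Algebra ℂ R₁] [CommRing R₂] [Algebra ℂ R₂]
    [CommRing R] [Algebra ℂ R] (𝒜₁ : Cl ρ₁ → Submodule ℂ R₁) (𝒜₂ : Cl ρ₂ → Submodule ℂ R₂)
    (𝒜 : Cl (ρ₁ + ρ₂) → Submodule ℂ R) (ι₁ : R₁ →ₐ[ℂ] R) (ι₂ : R₂ →ₐ[ℂ] R) : Prop where
  bij : Function.Bijective (Algebra.TensorProduct.productMap ι₁ ι₂)
  piece : ∀ β, 𝒜 β = Submodule.span ℂ {r | ∃ a ∈ 𝒜₁ (pr1 β), ∃ b ∈ 𝒜₂ (pr2 β), r = ι₁ a * ι₂ b}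

end Pool.Agent.U201.PR
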