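import Pool.Agent.U201.PR.Main
import Pool.Agent.U201.PR.VarDefs

/-!
# Iterated products
-/

set_option autoImplicit false

namespace Pool.Agent.U201.PR

open Pool.Agent.X324.CF Pool.Agent.U201.EC

theorem good_prod {𝒞 : Variety → Prop} (h𝒞 : ∀ F, 𝒞 F → Good F) {F : Variety}
    (hF : ProductOf 𝒞 F) : Good F := by
  induction hF with
  | factor F h => exact h𝒞 F h
  | prod F₁ F₂ R 𝒜 ι₁ ι₂ _ _ P ih1 ih2 =>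
    refine ⟨prod_variety' P ?_ ?_ ih1.2 ih2.2, const_prod P ih1.2 ih2.2⟩
    · rw [pr1_append]
      exact ih1.1
    · rw [pr2_append]
      exact ih2.1

/-- The nef and the effective cone of a product, and its automorphisms which act trivially on the
classes. -/
theorem cones_prod {F₁ F₂ : Variety} {R : Type} [CommRing R] [Algebra ℂ R] [IsDomain R]
    {𝒜 : Cl (F₁.ρ + F₂.ρ) → Submodule ℂ R} [GradedAlgebra 𝒜] {ι₁ : F₁.R →ₐ[ℂ] R}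
    {ι₂ : F₂.R →ₐ[ℂ] R} (h1 : Good F₁) (h2 : Good F₂) (P : IsProduct F₁.𝒜 F₂.𝒜 𝒜 ι₁ ι₂) :
    (∀ b, b ∈ NefF 𝒜 (Fin.append F₁.u F₂.u) ↔
      pr1 b ∈ NefF F₁.𝒜 F₁.u ∧ pr2 b ∈ NefF F₂.𝒜 F₂.u) ∧
    (∀ b, b ∈ EffF 𝒜 ↔ pr1 b ∈ EffF F₁.𝒜 ∧ pr2 b ∈ EffF F₂.𝒜) ∧
    (∀ φ : R ≃ₐ[ℂ] R, Induces 𝒜 φ (AddEquiv.refl _) →
      ∃ (φ₁ : F₁.R ≃ₐ[ℂ] F₁.R) (φ₂ : F₂.R ≃ₐ[ℂ] F₂.R), Induces F₁.𝒜 φ₁ (AddEquiv.refl _) ∧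
        Induces F₂.𝒜 φ₂ (AddEquiv.refl _) ∧ (∀ a, φ (ι₁ a) = ι₁ (φ₁ a)) ∧
          ∀ a, φ (ι₂ a) = ι₂ (φ₂ a)) := by
  have e1 : pr1 (Fin.append F₁.u F₂.u) = F₁.u := pr1_append _ _
  have e2 : pr2 (Fin.append F₁.u F₂.u) = F₂.u := pr2_append _ _
  refine ⟨fun b => ⟨fun hb => ⟨?_, ?_⟩, ?_⟩, fun b => ⟨fun hb => ⟨eff_q1 P hb, eff_q2 P hb⟩, ?_⟩,
    fun φ hφ => ?_⟩
  · have h3 := nef_q1 P (v := Fin.append F₁.u F₂.u) (by rw [e2]; exact h2.1.point) hb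
    rwa [e1] at h3
  · have h3 := nef_q2 P (v := Fin.append F₁.u F₂.u) (by rw [e1]; exact h1.1.point) hb
    rwa [e2] at h3
  · rintro ⟨h3, h4⟩
    rw [← j_add b]
    refine nefF_add (nef_j1 P ?_) (nef_j2 P ?_)
    · rw [e1]; exact h3
    · rw [e2]; exact h4
  · rintro ⟨h3, h4⟩
    rw [← j_add b]
    exact hull_add (eff_j1 P h3) (eff_j2 P h4)
  · obtain ⟨φ₁, φ₂, h3, h4, rfl⟩ := split_aut P h1.2 h2.2 hφ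
    exact ⟨φ₁, φ₂, h3, h4, P.lf₁ _ _, P.lf₂ _ _⟩

end Pool.Agent.U201.PR
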