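import Pool.Agent.U201.PR.Basic

/-!
# Automorphisms of products
-/

set_option autoImplicit false

namespace Pool.Agent.U201.PR

open Finset
open Pool.Agent.X324.CF Pool.Agent.U201.EC
open scoped TensorProduct

variable {ρ₁ ρ₂ : ℕ}

variable {R₁ R₂ R : Type*} [CommRing R₁] [Algebra ℂ R₁] [CommRing R₂] [Algebra ℂ R₂]
    [CommRing R] [Algebra ℂ R] {𝒜₁ : Cl ρ₁ → Submodule ℂ R₁} {𝒜₂ : Cl ρ₂ → Submodule ℂ R₂}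
    {𝒜 : Cl (ρ₁ + ρ₂) → Submodule ℂ R} {ι₁ : R₁ →ₐ[ℂ] R} {ι₂ : R₂ →ₐ[ℂ] R}
    {u : Cl (ρ₁ + ρ₂)}

/-- An automorphism which preserves a subalgebra restricts to it. -/
theorem restr {S : Type*} [CommRing S] [Algebra ℂ S] {ι : S →ₐ[ℂ] R} (hι : Function.Injective ι)
    {φ : R ≃ₐ[ℂ] R} (h : ∀ a, ∃ b, φ (ι a) = ι b) (h' : ∀ a, ∃ b, φ.symm (ι a) = ι b) :
    ∃ φ₁ : S ≃ₐ[ℂ] S, ∀ a, ι (φ₁ a) = φ (ι a) := by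
  choose f hf using h
  choose g hg using h'
  let F : S →ₐ[ℂ] S :=
    { toFun := f
      map_one' := hι (by rw [← hf, map_one, map_one])
      map_mul' := fun a b => hι (by rw [← hf, map_mul, map_mul, map_mul, hf, hf])
      map_zero' := hι (by rw [← hf, map_zero, map_zero])
      map_add' := fun a b => hι (by rw [← hf, map_add, map_add, map_add, hf, hf])
      commutes' := fun c => hι (by rw [← hf, AlgHom.commutes, AlgEquiv.commutes]) }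
  let G : S →ₐ[ℂ] S :=
    { toFun := g
      map_one' := hι (by rw [← hg, map_one, map_one])
      map_mul' := fun a b => hι (by rw [← hg, map_mul, map_mul, map_mul, hg, hg])
      map_zero' := hι (by rw [← hg, map_zero, map_zero])
      map_add' := fun a b => hι (by rw [← hg, map_add, map_add, map_add, hg, hg])
      commutes' := fun c => hι (by rw [← hg, AlgHom.commutes, AlgEquiv.commutes]) }
  refine ⟨AlgEquiv.ofAlgHom F G ?_ ?_, fun a => (hf a).symm⟩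
  · ext a
    apply hι
    change ι (f (g a)) = ι a
    rw [← hf, ← hg, φ.apply_symm_apply]
  · ext a
    apply hι
    change ι (g (f a)) = ι a
    rw [← hg, ← hf, φ.symm_apply_apply]

/-- The only functions are the constants. -/
def Const {ρ : ℕ} {S : Type*} [CommRing S] [Algebra ℂ S] (ℬ : Cl ρ → Submodule ℂ S) : Prop :=
  ∀ r ∈ ℬ 0, ∃ c : ℂ, r = algebraMap ℂ S c

theorem mem_one₁ [GradedAlgebra 𝒜₂] (P : IsProduct 𝒜₁ 𝒜₂ 𝒜 ι₁ ι₂) {β : Cl ρ₁} {a : R₁}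
    (ha : a ∈ 𝒜₁ β) : ι₁ a ∈ 𝒜 (Fin.append β 0) := by
  have h1 := P.mem (β := Fin.append β 0) (a := a) (by rwa [pr1_append]) (b := 1) (by
    rw [pr2_append]
    exact SetLike.GradedOne.one_mem)
  rwa [map_one, mul_one] at h1

theorem mem_one₂ [GradedAlgebra 𝒜₁] (P : IsProduct 𝒜₁ 𝒜₂ 𝒜 ι₁ ι₂) {β : Cl ρ₂} {b : R₂}
    (hb : b ∈ 𝒜₂ β) : ι₂ b ∈ 𝒜 (Fin.append 0 β) := by
  have h1 := P.mem (β := Fin.append 0 β) (a := 1) (by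
    rw [pr1_append]
    exact SetLike.GradedOne.one_mem) (b := b) (by rwa [pr2_append])
  rwa [map_one, one_mul] at h1

theorem of_mem₁ (P : IsProduct 𝒜₁ 𝒜₂ 𝒜 ι₁ ι₂) (hc : Const 𝒜₂) {β : Cl ρ₁} {r : R}
    (hr : r ∈ 𝒜 (Fin.append β 0)) : ∃ a ∈ 𝒜₁ β, r = ι₁ a := by
  have h1 := P.ind (S := (𝒜₁ β).map ι₁.toLinearMap) (fun a ha b hb => by
    rw [pr1_append] at ha
    rw [pr2_append] at hb
    obtain ⟨c, rfl⟩ := hc b hb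
    refine ⟨c • a, Submodule.smul_mem _ _ ha, ?_⟩
    change ι₁ (c • a) = _
    rw [map_smul, AlgHom.commutes, Algebra.smul_def, mul_comm]) hr
  obtain ⟨a, ha, h2⟩ := h1
  exact ⟨a, ha, h2.symm⟩

theorem of_mem₂ (P : IsProduct 𝒜₁ 𝒜₂ 𝒜 ι₁ ι₂) (hc : Const 𝒜₁) {β : Cl ρ₂} {r : R}
    (hr : r ∈ 𝒜 (Fin.append 0 β)) : ∃ b ∈ 𝒜₂ β, r = ι₂ b := by
  have h1 := P.ind (S := (𝒜₂ β).map ι₂.toLinearMap) (fun a ha b hb => by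
    rw [pr1_append] at ha
    rw [pr2_append] at hb
    obtain ⟨c, rfl⟩ := hc a ha
    refine ⟨c • b, Submodule.smul_mem _ _ hb, ?_⟩
    change ι₂ (c • b) = _
    rw [map_smul, AlgHom.commutes, Algebra.smul_def]) hr
  obtain ⟨a, ha, h2⟩ := h1
  exact ⟨a, ha, h2.symm⟩

theorem const_prod (P : IsProduct 𝒜₁ 𝒜₂ 𝒜 ι₁ ι₂) (h1 : Const 𝒜₁) (h2 : Const 𝒜₂) : Const 𝒜 := by
  intro r hr
  have h3 := P.ind (S := (1 : Submodule ℂ R)) (fun a ha b hb => by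
    obtain ⟨c, rfl⟩ := h1 a ha
    obtain ⟨d, rfl⟩ := h2 b hb
    rw [AlgHom.commutes, AlgHom.commutes, ← map_mul]
    exact Submodule.algebraMap_mem _) hr
  obtain ⟨c, hc⟩ := Submodule.mem_one.1 h3
  exact ⟨c, hc.symm⟩

variable [GradedAlgebra 𝒜₁] [GradedAlgebra 𝒜₂] [GradedAlgebra 𝒜]

omit [GradedAlgebra 𝒜] in
theorem pres₁ (P : IsProduct 𝒜₁ 𝒜₂ 𝒜 ι₁ ι₂) (hc : Const 𝒜₂) {φ : R ≃ₐ[ℂ] R}
    (hφ : Induces 𝒜 φ (AddEquiv.refl _)) (a : R₁) : ∃ b, φ (ι₁ a) = ι₁ b := by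
  classical
  refine DirectSum.Decomposition.inductionOn 𝒜₁ (motive := fun a => ∃ b, φ (ι₁ a) = ι₁ b)
    ⟨0, by simp⟩ ?_ ?_ a
  · intro β m
    obtain ⟨b, -, hb⟩ := of_mem₁ P hc (hφ _ _ (mem_one₁ P m.2))
    exact ⟨b, hb⟩
  · rintro a b ⟨a', ha⟩ ⟨b', hb⟩
    exact ⟨a' + b', by rw [map_add, map_add, map_add, ha, hb]⟩

omit [GradedAlgebra 𝒜] in
theorem pres₂ (P : IsProduct 𝒜₁ 𝒜₂ 𝒜 ι₁ ι₂) (hc : Const 𝒜₁) {φ : R ≃ₐ[ℂ] R}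
    (hφ : Induces 𝒜 φ (AddEquiv.refl _)) (a : R₂) : ∃ b, φ (ι₂ a) = ι₂ b := by
  classical
  refine DirectSum.Decomposition.inductionOn 𝒜₂ (motive := fun a => ∃ b, φ (ι₂ a) = ι₂ b)
    ⟨0, by simp⟩ ?_ ?_ a
  · intro β m
    obtain ⟨b, -, hb⟩ := of_mem₂ P hc (hφ _ _ (mem_one₂ P m.2))
    exact ⟨b, hb⟩
  · rintro a b ⟨a', ha⟩ ⟨b', hb⟩
    exact ⟨a' + b', by rw [map_add, map_add, map_add, ha, hb]⟩

/-- An automorphism which acts trivially on the classes is the product of automorphisms of the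
factors. -/
theorem split_aut [Nontrivial R₁] [Nontrivial R₂] (P : IsProduct 𝒜₁ 𝒜₂ 𝒜 ι₁ ι₂) (hc₁ : Const 𝒜₁)
    (hc₂ : Const 𝒜₂) {φ : R ≃ₐ[ℂ] R} (hφ : Induces 𝒜 φ (AddEquiv.refl _)) :
    ∃ (φ₁ : R₁ ≃ₐ[ℂ] R₁) (φ₂ : R₂ ≃ₐ[ℂ] R₂), Induces 𝒜₁ φ₁ (AddEquiv.refl _) ∧
      Induces 𝒜₂ φ₂ (AddEquiv.refl _) ∧ φ = P.lf φ₁ φ₂ := by
  have hφ' : Induces 𝒜 φ.symm (AddEquiv.refl _) := induces_inv hφ
  obtain ⟨φ₁, h1⟩ := restr P.inj₁ (φ := φ) (pres₁ P hc₂ hφ) (pres₁ P hc₂ hφ')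
  obtain ⟨φ₂, h2⟩ := restr P.inj₂ (φ := φ) (pres₂ P hc₁ hφ) (pres₂ P hc₁ hφ')
  refine ⟨φ₁, φ₂, fun β a ha => ?_, fun β b hb => ?_, P.equiv_ext' (fun a => ?_) fun b => ?_⟩
  · obtain ⟨b, hb, h3⟩ := of_mem₁ P hc₂ (hφ _ _ (mem_one₁ P ha))
    rw [← h1] at h3
    rw [P.inj₁ h3]
    exact hb
  · obtain ⟨a, ha, h3⟩ := of_mem₂ P hc₁ (hφ _ _ (mem_one₂ P hb))
    rw [← h2] at h3
    rw [P.inj₂ h3]
    exact ha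
  · rw [P.lf₁, h1]
  · rw [P.lf₂, h2]

omit [GradedAlgebra 𝒜₁] [GradedAlgebra 𝒜₂] [GradedAlgebra 𝒜] in
theorem lf_scal (P : IsProduct 𝒜₁ 𝒜₂ 𝒜 ι₁ ι₂) {s₁ : R₁ ≃ₐ[ℂ] R₁} {s₂ : R₂ ≃ₐ[ℂ] R₂}
    (h1 : s₁ ∈ Scal 𝒜₁) (h2 : s₂ ∈ Scal 𝒜₂) : P.lf s₁ s₂ ∈ Scal 𝒜 := by
  intro β
  obtain ⟨c, hc⟩ := h1 (pr1 β)
  obtain ⟨d, hd⟩ := h2 (pr2 β)
  refine ⟨c * d, fun r hr => ?_⟩
  have h3 := P.ind (S := LinearMap.ker ((P.lf s₁ s₂).toLinearMap - (c * d) • LinearMap.id))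
    (fun a ha b hb => by
      rw [LinearMap.mem_ker, LinearMap.sub_apply, LinearMap.smul_apply, LinearMap.id_apply,
        sub_eq_zero]
      change P.lf s₁ s₂ (ι₁ a * ι₂ b) = _
      rw [map_mul, P.lf₁, P.lf₂, hc a ha, hd b hb, map_smul, map_smul, smul_mul_smul_comm]) hr
  rw [LinearMap.mem_ker, LinearMap.sub_apply, sub_eq_zero] at h3
  exact h3

theorem kernel_prod [Nontrivial R₁] [Nontrivial R₂] (P : IsProduct 𝒜₁ 𝒜₂ 𝒜 ι₁ ι₂)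
    (hc₁ : Const 𝒜₁) (hc₂ : Const 𝒜₂)
    (h1 : ∃ T : Set (R₁ ≃ₐ[ℂ] R₁), T.Finite ∧ ∀ φ, Induces 𝒜₁ φ (AddEquiv.refl _) →
      ∃ t ∈ T, ∃ s ∈ Scal 𝒜₁, φ = t * s)
    (h2 : ∃ T : Set (R₂ ≃ₐ[ℂ] R₂), T.Finite ∧ ∀ φ, Induces 𝒜₂ φ (AddEquiv.refl _) →
      ∃ t ∈ T, ∃ s ∈ Scal 𝒜₂, φ = t * s) :
    ∃ T : Set (R ≃ₐ[ℂ] R), T.Finite ∧ ∀ φ, Induces 𝒜 φ (AddEquiv.refl _) →
      ∃ t ∈ T, ∃ s ∈ Scal 𝒜, φ = t * s := by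
  obtain ⟨T₁, hT₁, h1⟩ := h1
  obtain ⟨T₂, hT₂, h2⟩ := h2
  refine ⟨Set.image2 P.lf T₁ T₂, Set.Finite.image2 _ hT₁ hT₂, fun φ hφ => ?_⟩
  obtain ⟨φ₁, φ₂, h3, h4, rfl⟩ := split_aut P hc₁ hc₂ hφ
  obtain ⟨t₁, ht₁, s₁, hs₁, rfl⟩ := h1 φ₁ h3
  obtain ⟨t₂, ht₂, s₂, hs₂, rfl⟩ := h2 φ₂ h4
  exact ⟨P.lf t₁ t₂, ⟨t₁, ht₁, t₂, ht₂, rfl⟩, P.lf s₁ s₂, lf_scal P hs₁ hs₂, P.lf_mul _ _ _ _⟩

end Pool.Agent.U201.PR
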