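import Pool.Agent.U201.PR.Cone
import Pool.Agent.U201.GC.Mov

/-!
# The movable cones of products
-/

set_option autoImplicit false

namespace Pool.Agent.U201.PR

open Finset Filter Topology
open Pool.Agent.X324.CF Pool.Agent.U201.EC Pool.Agent.U201.CM Pool.Agent.U201.GC
open Pool.Agent.Y167 (cone cone_add cone_smul cone_le cone_mono cone_sum mem_cone_self
  zero_mem_cone cone_image cone_ind)
open scoped TensorProduct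

/-- The coordinates of the effective classes are bounded by the degree on a class of curves. -/
def Crv {ρ : ℕ} {S : Type*} [CommRing S] [Algebra ℂ S] (ℬ : Cl ρ → Submodule ℂ S) : Prop :=
  ∃ y : Cl ρ, ∀ β, (∃ r ∈ ℬ β, r ≠ 0) → ∀ i, |β i| ≤ ∑ k, y k * β k

theorem Crv.zero {ρ : ℕ} {S : Type*} [CommRing S] [Algebra ℂ S] {ℬ : Cl ρ → Submodule ℂ S}
    (h : Crv ℬ) {β γ : Cl ρ} (h1 : ∃ r ∈ ℬ β, r ≠ 0) (h2 : ∃ r ∈ ℬ γ, r ≠ 0) (h0 : β + γ = 0) :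
    β = 0 := by
  obtain ⟨y, hy⟩ := h
  obtain rfl : γ = -β := (neg_eq_of_add_eq_zero_right h0).symm
  funext i
  have h3 := hy β h1 i
  have h4 := hy (-β) h2 i
  have h5 : ∑ k, y k * (-β) k = - ∑ k, y k * β k := by
    rw [← Finset.sum_neg_distrib]
    exact Finset.sum_congr rfl fun k _ => by rw [Pi.neg_apply, mul_neg]
  have h6 : |(-β) i| = |β i| := by rw [Pi.neg_apply, abs_neg]
  rw [h5, h6] at h4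
  have h7 : |β i| = 0 := le_antisymm (by linarith) (abs_nonneg _)
  exact abs_eq_zero.1 h7

variable {ρ₁ ρ₂ : ℕ} {R₁ R₂ R : Type*} [CommRing R₁] [Algebra ℂ R₁] [CommRing R₂] [Algebra ℂ R₂]
    [CommRing R] [Algebra ℂ R] {𝒜₁ : Cl ρ₁ → Submodule ℂ R₁} {𝒜₂ : Cl ρ₂ → Submodule ℂ R₂}
    {𝒜 : Cl (ρ₁ + ρ₂) → Submodule ℂ R} {ι₁ : R₁ →ₐ[ℂ] R} {ι₂ : R₂ →ₐ[ℂ] R}
    {v : Cl (ρ₁ + ρ₂)}

variable [GradedAlgebra 𝒜₁] [GradedAlgebra 𝒜₂] [GradedAlgebra 𝒜] [IsDomain R₁] [IsDomain R₂]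
  [IsDomain R]

omit [GradedAlgebra 𝒜₁] [GradedAlgebra 𝒜₂] [IsDomain R₁] [IsDomain R₂] in
theorem deg_split {h g : R} {β : Cl (ρ₁ + ρ₂)} (e : h * g ∈ 𝒜 β) (e0 : h * g ≠ 0) :
    ∃ γ δ, h ∈ 𝒜 γ ∧ g ∈ 𝒜 δ ∧ γ + δ = β := by
  obtain ⟨γ, hγ⟩ := homog_of_mul e e0
  obtain ⟨δ, hδ⟩ := homog_of_mul (a := g) (b := h) (by rwa [mul_comm]) (by rwa [mul_comm])
  exact ⟨γ, δ, hγ, hδ, DirectSum.degree_eq_of_mem_mem 𝒜 (SetLike.mul_mem_graded hγ hδ) e e0⟩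

omit [GradedAlgebra 𝒜₁] [IsDomain R₁] in
/-- A divisor of a section which comes from the first factor comes from the first factor. -/
theorem dvd_split₁ (P : IsProduct 𝒜₁ 𝒜₂ 𝒜 ι₁ ι₂) (hc : Const 𝒜₂) (hy : Crv 𝒜₂) {β : Cl ρ₁}
    {a : R₁} (ha : a ∈ 𝒜₁ β) (ha0 : a ≠ 0) {h g : R} (e : h * g = ι₁ a) :
    ∃ h₁ g₁ : R₁, h = ι₁ h₁ ∧ g = ι₁ g₁ ∧ h₁ * g₁ = a := by
  have h0 : h * g ≠ 0 := fun h1 => ha0 (P.inj₁ (by rw [← e, h1, map_zero]))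
  obtain ⟨γ, δ, hγ, hδ, h1⟩ := deg_split (𝒜 := 𝒜) (by rw [e]; exact mem_one₁ P ha) h0
  have h2 : pr2 γ + pr2 δ = 0 := by
    have h3 : pr2 (γ + δ) = pr2 (Fin.append β 0) := by rw [h1]
    rwa [pr2_append] at h3
  have h3 : pr2 γ = 0 := hy.zero (eff_pr P ⟨h, hγ, left_ne_zero_of_mul h0⟩).2
    (eff_pr P ⟨g, hδ, right_ne_zero_of_mul h0⟩).2 h2
  have h4 : pr2 δ = 0 := by rwa [h3, zero_add] at h2
  have h5 : γ = Fin.append (pr1 γ) 0 := by rw [← h3, append_pr]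
  have h6 : δ = Fin.append (pr1 δ) 0 := by rw [← h4, append_pr]
  rw [h5] at hγ
  rw [h6] at hδ
  obtain ⟨h₁, -, rfl⟩ := of_mem₁ P hc hγ
  obtain ⟨g₁, -, rfl⟩ := of_mem₁ P hc hδ
  exact ⟨h₁, g₁, rfl, rfl, P.inj₁ (by rw [map_mul, e])⟩

omit [GradedAlgebra 𝒜₂] [IsDomain R₂] in
theorem dvd_split₂ (P : IsProduct 𝒜₁ 𝒜₂ 𝒜 ι₁ ι₂) (hc : Const 𝒜₁) (hy : Crv 𝒜₁) {β : Cl ρ₂}
    {a : R₂} (ha : a ∈ 𝒜₂ β) (ha0 : a ≠ 0) {h g : R} (e : h * g = ι₂ a) :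
    ∃ h₁ g₁ : R₂, h = ι₂ h₁ ∧ g = ι₂ g₁ ∧ h₁ * g₁ = a := by
  have h0 : h * g ≠ 0 := fun h1 => ha0 (P.inj₂ (by rw [← e, h1, map_zero]))
  obtain ⟨γ, δ, hγ, hδ, h1⟩ := deg_split (𝒜 := 𝒜) (by rw [e]; exact mem_one₂ P ha) h0
  have h2 : pr1 γ + pr1 δ = 0 := by
    have h3 : pr1 (γ + δ) = pr1 (Fin.append 0 β) := by rw [h1]
    rwa [pr1_append] at h3
  have h3 : pr1 γ = 0 := hy.zero (eff_pr P ⟨h, hγ, left_ne_zero_of_mul h0⟩).1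
    (eff_pr P ⟨g, hδ, right_ne_zero_of_mul h0⟩).1 h2
  have h4 : pr1 δ = 0 := by rwa [h3, zero_add] at h2
  have h5 : γ = Fin.append 0 (pr2 γ) := by rw [← h3, append_pr]
  have h6 : δ = Fin.append 0 (pr2 δ) := by rw [← h4, append_pr]
  rw [h5] at hγ
  rw [h6] at hδ
  obtain ⟨h₁, -, rfl⟩ := of_mem₂ P hc hγ
  obtain ⟨g₁, -, rfl⟩ := of_mem₂ P hc hδ
  exact ⟨h₁, g₁, rfl, rfl, P.inj₂ (by rw [map_mul, e])⟩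

omit [GradedAlgebra 𝒜₁] in
/-- The pullbacks of movable classes are movable. -/
theorem mov_mk₁ (P : IsProduct 𝒜₁ 𝒜₂ 𝒜 ι₁ ι₂) (hc : Const 𝒜₂) (hy : Crv 𝒜₂) {β : Cl ρ₁}
    (h : MovableF 𝒜₁ β) : MovableF 𝒜 (Fin.append β 0) := by
  obtain ⟨m, hm, h1⟩ := h
  obtain ⟨a₀, ha₀, ha₀'⟩ := CM.exists_ne h1
  have hmem : ∀ a ∈ 𝒜₁ (m • β), ι₁ a ∈ 𝒜 (m • (Fin.append β 0 : Cl (ρ₁ + ρ₂))) := by
    intro a ha
    have h2 : (m • (Fin.append β 0 : Cl (ρ₁ + ρ₂))) = Fin.append (m • β) 0 := by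
      apply ext_pr
      · rw [pr1_append]
        change m • pr1 (Fin.append β 0) = _
        rw [pr1_append]
      · rw [pr2_append]
        change m • pr2 (Fin.append β 0) = _
        rw [pr2_append, smul_zero]
    rw [h2]
    exact mem_one₁ P ha
  refine ⟨m, hm, fun h hh => ?_⟩
  obtain ⟨g₀, hg₀⟩ := hh _ (hmem a₀ ha₀)
  obtain ⟨h₁, g₁, rfl, -, -⟩ := dvd_split₁ P hc hy ha₀ ha₀' hg₀.symm
  refine (h1 h₁ fun a ha => ?_).map ι₁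
  by_cases ha0 : a = 0
  · rw [ha0]; exact dvd_zero _
  · obtain ⟨g, hg⟩ := hh _ (hmem a ha)
    obtain ⟨h₂, g₂, e2, -, e3⟩ := dvd_split₁ P hc hy ha ha0 hg.symm
    rw [P.inj₁ e2]
    exact ⟨g₂, e3.symm⟩

omit [GradedAlgebra 𝒜₂] in
theorem mov_mk₂ (P : IsProduct 𝒜₁ 𝒜₂ 𝒜 ι₁ ι₂) (hc : Const 𝒜₁) (hy : Crv 𝒜₁) {β : Cl ρ₂}
    (h : MovableF 𝒜₂ β) : MovableF 𝒜 (Fin.append 0 β) := by
  obtain ⟨m, hm, h1⟩ := h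
  obtain ⟨a₀, ha₀, ha₀'⟩ := CM.exists_ne h1
  have hmem : ∀ a ∈ 𝒜₂ (m • β), ι₂ a ∈ 𝒜 (m • (Fin.append 0 β : Cl (ρ₁ + ρ₂))) := by
    intro a ha
    have h2 : (m • (Fin.append 0 β : Cl (ρ₁ + ρ₂))) = Fin.append 0 (m • β) := by
      apply ext_pr
      · rw [pr1_append]
        change m • pr1 (Fin.append 0 β) = _
        rw [pr1_append, smul_zero]
      · rw [pr2_append]
        change m • pr2 (Fin.append 0 β) = _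
        rw [pr2_append]
    rw [h2]
    exact mem_one₂ P ha
  refine ⟨m, hm, fun h hh => ?_⟩
  obtain ⟨g₀, hg₀⟩ := hh _ (hmem a₀ ha₀)
  obtain ⟨h₁, g₁, rfl, -, -⟩ := dvd_split₂ P hc hy ha₀ ha₀' hg₀.symm
  refine (h1 h₁ fun a ha => ?_).map ι₂
  by_cases ha0 : a = 0
  · rw [ha0]; exact dvd_zero _
  · obtain ⟨g, hg⟩ := hh _ (hmem a ha)
    obtain ⟨h₂, g₂, e2, -, e3⟩ := dvd_split₂ P hc hy ha ha0 hg.symm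
    rw [P.inj₂ e2]
    exact ⟨g₂, e3.symm⟩

/-- A class is movable if its restrictions to the factors are movable. -/
theorem mov_mk (hR : UniqueFactorizationMonoid R) (P : IsProduct 𝒜₁ 𝒜₂ 𝒜 ι₁ ι₂)
    (hc₁ : Const 𝒜₁) (hy₁ : Crv 𝒜₁) (hc₂ : Const 𝒜₂) (hy₂ : Crv 𝒜₂) {β : Cl (ρ₁ + ρ₂)}
    (h1 : MovableF 𝒜₁ (pr1 β)) (h2 : MovableF 𝒜₂ (pr2 β)) : MovableF 𝒜 β := by
  have h3 := (mov_mk₁ P hc₂ hy₂ h1).add (mov_mk₂ P hc₁ hy₁ h2)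
  rwa [← append_add, add_zero, zero_add, append_pr] at h3

theorem mov_pr₁ (P : IsProduct 𝒜₁ 𝒜₂ 𝒜 ι₁ ι₂) (hc : Const 𝒜₂) (hy : Crv 𝒜₂)
    {β : Cl (ρ₁ + ρ₂)} (h : MovableF 𝒜 β) : MovableF 𝒜₁ (pr1 β) := by
  obtain ⟨m, hm, h1⟩ := h
  refine ⟨m, hm, fun h₁ hh => ?_⟩
  have h2 : IsUnit (ι₁ h₁) := h1 _ fun r hr => by
    have h3 := P.ind (S := (Ideal.span {ι₁ h₁}).restrictScalars ℂ) (fun a ha b hb => by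
      rw [Submodule.restrictScalars_mem, Ideal.mem_span_singleton]
      exact ((map_dvd ι₁ (hh a ha)).mul_right _)) hr
    rwa [Submodule.restrictScalars_mem, Ideal.mem_span_singleton] at h3
  obtain ⟨g, hg⟩ := isUnit_iff_exists_inv.1 h2
  obtain ⟨h', g₁, e1, -, e2⟩ := dvd_split₁ P hc hy (β := 0) (a := 1) SetLike.GradedOne.one_mem
    one_ne_zero (h := ι₁ h₁) (g := g) (by rw [hg, map_one])
  rw [← P.inj₁ e1] at e2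
  exact IsUnit.of_mul_eq_one _ e2

theorem mov_pr₂ (P : IsProduct 𝒜₁ 𝒜₂ 𝒜 ι₁ ι₂) (hc : Const 𝒜₁) (hy : Crv 𝒜₁)
    {β : Cl (ρ₁ + ρ₂)} (h : MovableF 𝒜 β) : MovableF 𝒜₂ (pr2 β) := by
  obtain ⟨m, hm, h1⟩ := h
  refine ⟨m, hm, fun h₁ hh => ?_⟩
  have h2 : IsUnit (ι₂ h₁) := h1 _ fun r hr => by
    have h3 := P.ind (S := (Ideal.span {ι₂ h₁}).restrictScalars ℂ) (fun a ha b hb => by
      rw [Submodule.restrictScalars_mem, Ideal.mem_span_singleton]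
      exact ((map_dvd ι₂ (hh b hb)).mul_left _)) hr
    rwa [Submodule.restrictScalars_mem, Ideal.mem_span_singleton] at h3
  obtain ⟨g, hg⟩ := isUnit_iff_exists_inv.1 h2
  obtain ⟨h', g₁, e1, -, e2⟩ := dvd_split₂ P hc hy (β := 0) (a := 1) SetLike.GradedOne.one_mem
    one_ne_zero (h := ι₂ h₁) (g := g) (by rw [hg, map_one])
  rw [← P.inj₂ e1] at e2
  exact IsUnit.of_mul_eq_one _ e2

/-! ### The cones -/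

theorem mov_q1 (P : IsProduct 𝒜₁ 𝒜₂ 𝒜 ι₁ ι₂) (hc : Const 𝒜₂) (hy : Crv 𝒜₂)
    {b : Fin (ρ₁ + ρ₂) → ℝ} (hb : b ∈ MovF 𝒜) : q1 b ∈ MovF 𝒜₁ := by
  refine map_mem_closure (cont_lin q1) hb fun x hx => hull_lin (g := q1) ?_ hx
  rintro _ ⟨β, hβ, rfl⟩
  exact hull_mem ⟨pr1 β, mov_pr₁ P hc hy hβ, rfl⟩

theorem mov_q2 (P : IsProduct 𝒜₁ 𝒜₂ 𝒜 ι₁ ι₂) (hc : Const 𝒜₁) (hy : Crv 𝒜₁)
    {b : Fin (ρ₁ + ρ₂) → ℝ} (hb : b ∈ MovF 𝒜) : q2 b ∈ MovF 𝒜₂ := by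
  refine map_mem_closure (cont_lin q2) hb fun x hx => hull_lin (g := q2) ?_ hx
  rintro _ ⟨β, hβ, rfl⟩
  exact hull_mem ⟨pr2 β, mov_pr₂ P hc hy hβ, rfl⟩

omit [GradedAlgebra 𝒜₁] in
theorem mov_j1 (P : IsProduct 𝒜₁ 𝒜₂ 𝒜 ι₁ ι₂) (hc : Const 𝒜₂) (hy : Crv 𝒜₂) {a : Fin ρ₁ → ℝ}
    (ha : a ∈ MovF 𝒜₁) : (j1 a : Fin (ρ₁ + ρ₂) → ℝ) ∈ MovF 𝒜 := by
  refine map_mem_closure (cont_lin j1) ha fun x hx => hull_lin (g := j1) ?_ hx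
  rintro _ ⟨β, hβ, rfl⟩
  exact hull_mem ⟨Fin.append β 0, mov_mk₁ P hc hy hβ, j1_rv β⟩

omit [GradedAlgebra 𝒜₂] in
theorem mov_j2 (P : IsProduct 𝒜₁ 𝒜₂ 𝒜 ι₁ ι₂) (hc : Const 𝒜₁) (hy : Crv 𝒜₁) {a : Fin ρ₂ → ℝ}
    (ha : a ∈ MovF 𝒜₂) : (j2 a : Fin (ρ₁ + ρ₂) → ℝ) ∈ MovF 𝒜 := by
  refine map_mem_closure (cont_lin j2) ha fun x hx => hull_lin (g := j2) ?_ hx
  rintro _ ⟨β, hβ, rfl⟩
  exact hull_mem ⟨Fin.append 0 β, mov_mk₂ P hc hy hβ, j2_rv β⟩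

end Pool.Agent.U201.PR
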