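import Pool.Agent.U201.PR.PairNef

/-!
# Iterated products of pairs
-/

set_option autoImplicit false

namespace Pool.Agent.U201.PR

open Pool.Agent.X324.CF Pool.Agent.U201.EC Pool.Agent.U201.PC

section

variable {F₁ F₂ : Pair} {R : Type} [CommRing R] [Algebra ℂ R] [IsDomain R]
    {𝒜 : Cl (F₁.ρ + F₂.ρ) → Submodule ℂ R} [GradedAlgebra 𝒜] {ι₁ : F₁.R →ₐ[ℂ] R}
    {ι₂ : F₂.R →ₐ[ℂ] R}

theorem dense₁ (h : IsGoodPair F₁) : Dense F₁.𝒜 (pr1 (Fin.append F₁.u F₂.u)) := by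
  rw [pr1_append]; exact h.dense

theorem dense₂ (h : IsGoodPair F₂) : Dense F₂.𝒜 (pr2 (Fin.append F₁.u F₂.u)) := by
  rw [pr2_append]; exact h.dense

theorem isGoodPair_prod (h1 : IsGoodPair F₁) (h2 : IsGoodPair F₂)
    (P : IsProduct F₁.𝒜 F₂.𝒜 𝒜 ι₁ ι₂) :
    IsGoodPair ⟨F₁.ρ + F₂.ρ, R, 𝒜, Fin.append F₁.u F₂.u, ι₁ F₁.f * ι₂ F₂.f⟩ where
  const := const_prod P h1.const h2.const
  ne_zero := mul_ne_zero (fun h => h1.ne_zero (P.inj₁ (by rw [h, map_zero])))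
    fun h => h2.ne_zero (P.inj₂ (by rw [h, map_zero]))
  homog := by
    obtain ⟨δ₁, hδ₁⟩ := h1.homog
    obtain ⟨δ₂, hδ₂⟩ := h2.homog
    exact ⟨Fin.append δ₁ δ₂, P.mem (by rwa [pr1_append]) (by rwa [pr2_append])⟩
  dense := dense_prod P (dense₁ h1) (dense₂ h2)

end

theorem nefGood_prod {𝒞 : Pair → Prop} (h𝒞 : ∀ F, 𝒞 F → NefGood F) {F : Pair}
    (hF : PairProductOf 𝒞 F) : NefGood F := by
  induction hF with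
  | factor F h => exact h𝒞 F h
  | prod F₁ F₂ R 𝒜 ι₁ ι₂ _ _ P ih1 ih2 =>
    refine ⟨isGoodPair_prod ih1.1 ih2.1 P, prod_pair P ?_ ?_ ih1.1.const ih2.1.const
      (dense₁ ih1.1) (dense₂ ih2.1) ih1.1.ne_zero ih2.1.ne_zero⟩
    · rw [pr1_append]
      exact ih1.2
    · rw [pr2_append]
      exact ih2.2

/-- The nef and the effective cone of a product, and its automorphisms which act trivially on the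
classes. -/
theorem pair_cones_prod {F₁ F₂ : Pair} {R : Type} [CommRing R] [Algebra ℂ R] [IsDomain R]
    {𝒜 : Cl (F₁.ρ + F₂.ρ) → Submodule ℂ R} [GradedAlgebra 𝒜] {ι₁ : F₁.R →ₐ[ℂ] R}
    {ι₂ : F₂.R →ₐ[ℂ] R} (h1 : NefGood F₁) (h2 : NefGood F₂) (P : IsProduct F₁.𝒜 F₂.𝒜 𝒜 ι₁ ι₂) :
    (∀ b, b ∈ NefF 𝒜 (Fin.append F₁.u F₂.u) ↔
      pr1 b ∈ NefF F₁.𝒜 F₁.u ∧ pr2 b ∈ NefF F₂.𝒜 F₂.u) ∧
    (∀ b, b ∈ EffF 𝒜 ↔ pr1 b ∈ EffF F₁.𝒜 ∧ pr2 b ∈ EffF F₂.𝒜) ∧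
    (∀ φ : R ≃ₐ[ℂ] R,
      IsAutS 𝒜 (Fin.append F₁.u F₂.u) {p | p (ι₁ F₁.f * ι₂ F₂.f) = 0} φ (AddEquiv.refl _) →
      ∃ (φ₁ : F₁.R ≃ₐ[ℂ] F₁.R) (φ₂ : F₂.R ≃ₐ[ℂ] F₂.R),
        IsAutS F₁.𝒜 F₁.u {p | p F₁.f = 0} φ₁ (AddEquiv.refl _) ∧
        IsAutS F₂.𝒜 F₂.u {p | p F₂.f = 0} φ₂ (AddEquiv.refl _) ∧
        (∀ a, φ (ι₁ a) = ι₁ (φ₁ a)) ∧ ∀ a, φ (ι₂ a) = ι₂ (φ₂ a)) := by
  have e1 : pr1 (Fin.append F₁.u F₂.u) = F₁.u := pr1_append _ _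
  have e2 : pr2 (Fin.append F₁.u F₂.u) = F₂.u := pr2_append _ _
  refine ⟨fun b => ⟨fun hb => ⟨?_, ?_⟩, ?_⟩, fun b => ⟨fun hb => ⟨eff_q1 P hb, eff_q2 P hb⟩, ?_⟩,
    fun φ hφ => ?_⟩
  · have h3 := nef_q1 P (v := Fin.append F₁.u F₂.u) (by rw [e2]; exact h2.2.point) hb
    rwa [e1] at h3
  · have h3 := nef_q2 P (v := Fin.append F₁.u F₂.u) (by rw [e1]; exact h1.2.point) hb
    rwa [e2] at h3
  · rintro ⟨h3, h4⟩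
    rw [← j_add b]
    refine nefF_add (nef_j1 P ?_) (nef_j2 P ?_)
    · rw [e1]; exact h3
    · rw [e2]; exact h4
  · rintro ⟨h3, h4⟩
    rw [← j_add b]
    exact hull_add (eff_j1 P h3) (eff_j2 P h4)
  · obtain ⟨φ₁, φ₂, h3, h4, rfl⟩ := split_autS P h1.1.const h2.1.const (dense₁ h1.1)
      (dense₂ h2.1) h1.1.ne_zero h2.1.ne_zero hφ
    rw [e1] at h3
    rw [e2] at h4
    exact ⟨φ₁, φ₂, h3, h4, P.lf₁ _ _, P.lf₂ _ _⟩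

end Pool.Agent.U201.PR
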