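import Pool.Agent.U201.PR.Cone

/-!
# Retractions of the Cox ring of a product, and the density of the points
-/

set_option autoImplicit false

namespace Pool.Agent.U201.PR

open Pool.Agent.X324.CF Pool.Agent.U201.EC
open scoped TensorProduct

variable {ρ₁ ρ₂ : ℕ} {R₁ R₂ R : Type*} [CommRing R₁] [Algebra ℂ R₁] [CommRing R₂] [Algebra ℂ R₂]
    [CommRing R] [Algebra ℂ R] {𝒜₁ : Cl ρ₁ → Submodule ℂ R₁} {𝒜₂ : Cl ρ₂ → Submodule ℂ R₂}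
    {𝒜 : Cl (ρ₁ + ρ₂) → Submodule ℂ R} {ι₁ : R₁ →ₐ[ℂ] R} {ι₂ : R₂ →ₐ[ℂ] R}
    {v : Cl (ρ₁ + ρ₂)}

namespace IsProduct

/-- The linear map `a ⊗ b ↦ ℓ b • a`. -/
noncomputable def retr₁ (P : IsProduct 𝒜₁ 𝒜₂ 𝒜 ι₁ ι₂) (ℓ : R₂ →ₗ[ℂ] ℂ) : R →ₗ[ℂ] R₁ :=
  (TensorProduct.rid ℂ R₁).toLinearMap ∘ₗ (ℓ.lTensor R₁) ∘ₗ P.iso.symm.toLinearMap

theorem retr₁_mk (P : IsProduct 𝒜₁ 𝒜₂ 𝒜 ι₁ ι₂) (ℓ : R₂ →ₗ[ℂ] ℂ) (a : R₁) (b : R₂) :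
    P.retr₁ ℓ (ι₁ a * ι₂ b) = ℓ b • a := by
  change TensorProduct.rid ℂ R₁ (ℓ.lTensor R₁ (P.iso.symm (ι₁ a * ι₂ b))) = _
  rw [P.iso_symm, LinearMap.lTensor_tmul, TensorProduct.rid_tmul]

/-- Every element is a sum of products. -/
theorem sum_ind (P : IsProduct 𝒜₁ 𝒜₂ 𝒜 ι₁ ι₂) {p : R → Prop} (h0 : p 0)
    (hm : ∀ a b, p (ι₁ a * ι₂ b)) (ha : ∀ x y, p x → p y → p (x + y)) (r : R) : p r := by
  obtain ⟨x, rfl⟩ := P.iso.surjective r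
  induction x using TensorProduct.induction_on with
  | zero => rw [map_zero]; exact h0
  | tmul a b => rw [P.iso_tmul]; exact hm a b
  | add x y hx hy => rw [map_add]; exact ha _ _ hx hy

theorem retr₁_mul (P : IsProduct 𝒜₁ 𝒜₂ 𝒜 ι₁ ι₂) (ℓ : R₂ →ₗ[ℂ] ℂ) (a : R₁) (r : R) :
    P.retr₁ ℓ (ι₁ a * r) = a * P.retr₁ ℓ r := by
  refine P.sum_ind (p := fun r => P.retr₁ ℓ (ι₁ a * r) = a * P.retr₁ ℓ r) ?_ ?_ ?_ r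
  · rw [mul_zero, map_zero, mul_zero]
  · intro c b
    rw [← mul_assoc, ← map_mul, P.retr₁_mk, P.retr₁_mk, mul_smul_comm]
  · intro x y hx hy
    rw [mul_add, map_add, map_add, mul_add, hx, hy]

/-- The linear functionals on the second factor separate the elements of the product. -/
theorem exists_retr₁ (P : IsProduct 𝒜₁ 𝒜₂ 𝒜 ι₁ ι₂) {r : R} (hr : r ≠ 0) :
    ∃ ℓ : R₂ →ₗ[ℂ] ℂ, P.retr₁ ℓ r ≠ 0 := by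
  classical
  let 𝒞 := Module.Basis.ofVectorSpace ℂ R₂
  have h1 : P.iso.symm r ≠ 0 := fun h => hr (by rwa [map_eq_zero_iff _ P.iso.symm.injective] at h)
  have h2 : TensorProduct.equivFinsuppOfBasisRight (M := R₁) 𝒞 (P.iso.symm r) ≠ 0 := fun h =>
    h1 (by rwa [map_eq_zero_iff _ (LinearEquiv.injective _)] at h)
  obtain ⟨i, hi⟩ := Finsupp.ne_iff.1 h2
  rw [TensorProduct.equivFinsuppOfBasisRight_apply] at hi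
  exact ⟨𝒞.coord i, hi⟩

/-- The points of the second factor and linear functionals. -/
theorem retr₁_pt (P : IsProduct 𝒜₁ 𝒜₂ 𝒜 ι₁ ι₂) (p₁ : R₁ →ₐ[ℂ] ℂ) (p₂ : R₂ →ₐ[ℂ] ℂ) (r : R) :
    P.pt p₁ p₂ r = p₁ (P.retr₁ p₂.toLinearMap r) := by
  refine P.sum_ind (p := fun r => P.pt p₁ p₂ r = p₁ (P.retr₁ p₂.toLinearMap r)) ?_ ?_ ?_ r
  · rw [map_zero, map_zero, map_zero]
  · intro a b
    rw [map_mul, P.pt₁, P.pt₂, P.retr₁_mk, map_smul, smul_eq_mul, mul_comm]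
    rfl
  · intro x y hx hy
    rw [map_add, map_add, map_add, hx, hy]

/-- The inclusion of the first factor reflects divisibility. -/
theorem dvd_of_dvd₁ [Nontrivial R₂] (P : IsProduct 𝒜₁ 𝒜₂ 𝒜 ι₁ ι₂) {a b : R₁}
    (h : ι₁ a ∣ ι₁ b) : a ∣ b := by
  obtain ⟨g, hg⟩ := h
  obtain ⟨ℓ, hℓ⟩ : ∃ ℓ : R₂ →ₗ[ℂ] ℂ, ℓ 1 ≠ 0 := by
    by_contra hcon
    push Not at hcon
    exact one_ne_zero ((Module.forall_dual_apply_eq_zero_iff ℂ (1 : R₂)).1 hcon)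
  have h1 : P.retr₁ ℓ (ι₁ b) = ℓ 1 • b := by
    have h2 := P.retr₁_mk ℓ b 1
    rwa [map_one, mul_one] at h2
  rw [hg, P.retr₁_mul] at h1
  refine ⟨(ℓ 1)⁻¹ • P.retr₁ ℓ g, ?_⟩
  rw [mul_smul_comm, h1, smul_smul, inv_mul_cancel₀ hℓ, one_smul]

/-- The linear map `a ⊗ b ↦ ℓ a • b`. -/
noncomputable def retr₂ (P : IsProduct 𝒜₁ 𝒜₂ 𝒜 ι₁ ι₂) (ℓ : R₁ →ₗ[ℂ] ℂ) : R →ₗ[ℂ] R₂ :=
  (TensorProduct.lid ℂ R₂).toLinearMap ∘ₗ (ℓ.rTensor R₂) ∘ₗ P.iso.symm.toLinearMap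

theorem retr₂_mk (P : IsProduct 𝒜₁ 𝒜₂ 𝒜 ι₁ ι₂) (ℓ : R₁ →ₗ[ℂ] ℂ) (a : R₁) (b : R₂) :
    P.retr₂ ℓ (ι₁ a * ι₂ b) = ℓ a • b := by
  change TensorProduct.lid ℂ R₂ (ℓ.rTensor R₂ (P.iso.symm (ι₁ a * ι₂ b))) = _
  rw [P.iso_symm, LinearMap.rTensor_tmul, TensorProduct.lid_tmul]

theorem retr₂_mul (P : IsProduct 𝒜₁ 𝒜₂ 𝒜 ι₁ ι₂) (ℓ : R₁ →ₗ[ℂ] ℂ) (b : R₂) (r : R) :
    P.retr₂ ℓ (ι₂ b * r) = b * P.retr₂ ℓ r := by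
  refine P.sum_ind (p := fun r => P.retr₂ ℓ (ι₂ b * r) = b * P.retr₂ ℓ r) ?_ ?_ ?_ r
  · rw [mul_zero, map_zero, mul_zero]
  · intro a c
    rw [mul_left_comm, ← map_mul, P.retr₂_mk, P.retr₂_mk, mul_smul_comm]
  · intro x y hx hy
    rw [mul_add, map_add, map_add, mul_add, hx, hy]

theorem dvd_of_dvd₂ [Nontrivial R₁] (P : IsProduct 𝒜₁ 𝒜₂ 𝒜 ι₁ ι₂) {a b : R₂}
    (h : ι₂ a ∣ ι₂ b) : a ∣ b := by
  obtain ⟨g, hg⟩ := h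
  obtain ⟨ℓ, hℓ⟩ : ∃ ℓ : R₁ →ₗ[ℂ] ℂ, ℓ 1 ≠ 0 := by
    by_contra hcon
    push Not at hcon
    exact one_ne_zero ((Module.forall_dual_apply_eq_zero_iff ℂ (1 : R₁)).1 hcon)
  have h1 : P.retr₂ ℓ (ι₂ b) = ℓ 1 • b := by
    have h2 := P.retr₂_mk ℓ 1 b
    rwa [map_one, one_mul] at h2
  rw [hg, P.retr₂_mul] at h1
  refine ⟨(ℓ 1)⁻¹ • P.retr₂ ℓ g, ?_⟩
  rw [mul_smul_comm, h1, smul_smul, inv_mul_cancel₀ hℓ, one_smul]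

end IsProduct

/-- The points of `F` are dense: no section vanishes at all of them. -/
def Dense {ρ : ℕ} {S : Type*} [CommRing S] [Algebra ℂ S] (ℬ : Cl ρ → Submodule ℂ S)
    (u : Cl ρ) : Prop := ∀ r : S, r ≠ 0 → ∃ p : S →ₐ[ℂ] ℂ, Semistable ℬ u p ∧ p r ≠ 0

theorem dense_prod [GradedAlgebra 𝒜₁] [GradedAlgebra 𝒜₂] (P : IsProduct 𝒜₁ 𝒜₂ 𝒜 ι₁ ι₂)
    (h1 : Dense 𝒜₁ (pr1 v)) (h2 : Dense 𝒜₂ (pr2 v)) : Dense 𝒜 v := by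
  intro r hr
  obtain ⟨ℓ, hℓ⟩ := P.exists_retr₁ hr
  obtain ⟨p₁, hp₁, h3⟩ := h1 _ hℓ
  -- `ℓ ((p₁ ⊗ id) r) = p₁ ((id ⊗ ℓ) r) ≠ 0`
  have h4 : ∀ r, ℓ (P.retr₂ p₁.toLinearMap r) = p₁ (P.retr₁ ℓ r) := by
    intro r
    refine P.sum_ind (p := fun r => ℓ (P.retr₂ p₁.toLinearMap r) = p₁ (P.retr₁ ℓ r)) ?_ ?_ ?_ r
    · rw [map_zero, map_zero, map_zero, map_zero]
    · intro a b
      rw [P.retr₁_mk, P.retr₂_mk, map_smul, map_smul, smul_eq_mul, smul_eq_mul, mul_comm]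
      rfl
    · intro x y hx hy
      rw [map_add, map_add, map_add, map_add, hx, hy]
  have h5 : P.retr₂ p₁.toLinearMap r ≠ 0 := by
    intro h
    rw [← h4, h, map_zero] at h3
    exact h3 rfl
  obtain ⟨p₂, hp₂, h6⟩ := h2 _ h5
  have h7 : ∀ r, P.pt p₁ p₂ r = p₂ (P.retr₂ p₁.toLinearMap r) := by
    intro r
    refine P.sum_ind (p := fun r => P.pt p₁ p₂ r = p₂ (P.retr₂ p₁.toLinearMap r)) ?_ ?_ ?_ r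
    · rw [map_zero, map_zero, map_zero]
    · intro a b
      rw [map_mul, P.pt₁, P.pt₂, P.retr₂_mk, map_smul, smul_eq_mul]
      rfl
    · intro x y hx hy
      rw [map_add, map_add, map_add, hx, hy]
  have e1 : (P.pt p₁ p₂).comp ι₁ = p₁ := by ext a; exact P.pt₁ p₁ p₂ a
  have e2 : (P.pt p₁ p₂).comp ι₂ = p₂ := by ext a; exact P.pt₂ p₁ p₂ a
  exact ⟨P.pt p₁ p₂, (semistable_iff P).2 (by rw [e1, e2]; exact ⟨hp₁, hp₂⟩), by rw [h7]; exact h6⟩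

end Pool.Agent.U201.PR
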